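import Pool.Agent.H2.GEN.CloB
import Pool.Agent.H3.W2.H63.STAT.CloG
import Pool.Agent.H3.W.Nlp
import Pool.Agent.H31.W1.H80.GEN.Chn

/-!
# Closed balls

`clo_ball`: a two-sided chart of a ball (radius = window) gives, on a large event, a closed chart:
the labels of the point are the labels of the line, exactly.
-/

set_option autoImplicit false

namespace Pool.W.ISO

open Pool.ISO

open Finset Real MvPolynomial
open Pool.Agent.H49.Ent Pool.Agent.H32.Dense Pool.STK Pool.KA Pool.KSAT Pool.K2S Pool.PB Pool.S6C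
open Pool.GEN Pool.CHT Pool.CHX Pool.KS3
open Pool.STAT Pool.STAT.CLO

variable {m J : ℕ}


theorem nlp_shift (g : ℕ → ℕ) (l i : ℕ) :
    Pool.W.GEN.nlp (fun i => g (i - 1)) (l + 1) (i + 1) ≤ Pool.W.GEN.nlp g l i := by
  unfold Pool.W.GEN.nlp
  have h1 : (Finset.range ((i + 1) + 1)).sup (fun i => g (i - 1)) ≤ (Finset.range (i + 1)).sup g := by
    refine Finset.sup_le fun j hj => ?_
    have h3 := Finset.mem_range.1 hj
    exact Finset.le_sup (f := g) (Finset.mem_range.2 (by omega))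
  have h4 : i + 1 - 1 = i := by omega
  simp only [h4]
  omega

/-- **Closed balls.** -/
theorem clo_ball (n K : ℕ) : ∃ (sh K' c₁ : ℕ), 1 ≤ K' ∧ ∀ {m J : ℕ} {F : Pool.KA.Fam m J}
    {c : ℕ → Fin m} {w e : ℕ} {g : ℕ → ℕ} {A : F.Ω → Prop}
    {G : Pool.GEN.PtT F → ℕ → MvPolynomial (Option (Fin m)) ℝ}
    {H : Pool.GEN.LnT F → ℕ → MvPolynomial (Option (Fin m)) ℝ}, w ≤ J → Set.InjOn c (Set.Iio n) →
    (∀ i < n, sh ≤ g i) → Pool.W.GEN.ChOK F c n (fun _ => K) w w e g A G H →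
    ∃ (B : F.Ω → Prop) (G' : Pool.GEN.PtT F → ℕ → MvPolynomial (Option (Fin m)) ℝ)
      (H' : Pool.GEN.LnT F → ℕ → MvPolynomial (Option (Fin m)) ℝ), Pool.K2S.Sub B A ∧
      Pool.K2S.Pe F.p A ≤ K' * Pool.K2S.Pe F.p B ∧
      Pool.W.GEN.ChOK F c n (fun _ => K') w w (e + c₁) (fun i => g i - sh) B G' H' ∧ Pool.ISO.Clsd F n w B G' H' := by
  classical
  obtain ⟨sh, K', s₀, c₁, C₁, L, hC₁, hL, hK', hclo⟩ := Pool.W.STAT.CLO.clo_lip n K
  refine ⟨sh, K', c₁, hK', ?_⟩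
  intro m J F c w e g A G H hwJ hc hg hch
  have hInj : Pool.STAT.CLO.Inj c n := fun l hl l' hl' h => hc hl hl' h
  obtain ⟨C, B, h1, h2, h3, -, -, -, -, h8⟩ := hclo m J 0 w 1 F c (fun _ _ => K) (fun _ => e)
    (fun _ => g) A (fun _ => G) (fun _ => H) le_rfl (by omega) hInj (fun _ _ _ _ => le_rfl)
    (fun _ _ => hg) (fun k hk => by
      rw [Nat.le_zero.1 hk, Nat.zero_mul, Nat.add_zero]
      exact hch)
  have hw : w + 0 * 1 = w := by omega
  obtain ⟨V, hV⟩ : ∃ V : C.V 0 → ℕ → MvPolynomial (Option (Fin m)) ℝ, V = fun v i =>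
    if i < n then Pool.STAT.CLO.tb c (C.G 0 v (i + 1)) else 0 := ⟨_, rfl⟩
  have hVi : ∀ v, ∀ i < n, V v i = Pool.STAT.CLO.tb c (C.G 0 v (i + 1)) := fun v i hi => by
    rw [hV]
    exact if_pos hi
  have hVd : ∀ v i, (V v i).totalDegree ≤ K' := by
    intro v i
    rw [hV]
    show (if i < n then Pool.STAT.CLO.tb c (C.G 0 v (i + 1)) else 0).totalDegree ≤ K'
    split_ifs with hi
    · exact (Pool.STAT.CLO.tb_deg _ _).trans (h3.deg 0 le_rfl v (i + 1) (by omega) (by omega))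
    · rw [totalDegree_zero]
      exact Nat.zero_le _
  have hVp : ∀ v i, Pool.GEN.DepC c i (V v i) := by
    intro v i
    rw [hV]
    show Pool.GEN.DepC c i (if i < n then Pool.STAT.CLO.tb c (C.G 0 v (i + 1)) else 0)
    split_ifs with hi
    · exact Pool.STAT.CLO.tb_dep c (h3.tri 0 le_rfl v (i + 1) (by omega) (by omega))
    · exact fun b b' _ _ => by rw [map_zero, map_zero]
  have hcls : ∀ ω, B ω → C.pt 0 (Pool.PB.ptr F J ω) = C.li 0 (Pool.KSAT.slam F w ω) := fun ω hω => by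
    have := h3.cls 0 le_rfl ω hω
    rw [hw] at this
    exact this
  have hPh : ∀ ω, ∀ i, C.Ph w 1 0 ω (i + 1) = C.G 0 (C.li 0 (Pool.KSAT.slam F w ω)) (i + 1) := by
    intro ω i
    unfold Pool.STAT.CDat.Ph
    rw [if_neg (by omega), hw]
  have hP0 : ∀ ω, C.Ph w 1 0 ω 0 = MvPolynomial.C ((F.T1 w ω : ℝ) / 2 ^ w) := by
    intro ω
    unfold Pool.STAT.CDat.Ph
    rw [if_pos rfl, hw]
  -- the boxes
  have hbox : ∀ ω, B ω → ∀ i < n, ∀ b : Option (Fin m) → ℝ,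
      Pool.GEN.NBx c (V (C.pt 0 (Pool.PB.ptr F J ω))) (fun i => g i - sh) w (F.t ω) i b →
      Pool.STAT.CLO.Bxr 2 (Pool.STAT.CDat.g0 w 1 (fun _ i => g (i - 1) - sh) 0) (C.Ph w 1 0 ω) (i + 1) (Pool.STAT.CLO.pb c b) := by
    intro ω hω i hi b hb j hj
    rcases Nat.eq_zero_or_pos j with rfl | hj1
    · rw [Pool.STAT.CLO.pb_zero, hP0, eval_C]
      have h4 := Pool.STAT.CLO.t_cell F hwJ ω
      have h5 := hb.1
      have h6 : Pool.STAT.CDat.g0 w 1 (fun _ i => g (i - 1) - sh) 0 0 = w := by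
        unfold Pool.STAT.CDat.g0
        rw [if_pos rfl, hw]
      rw [h6]
      have h7 : (2 : ℝ) / 2 ^ w = 1 / 2 ^ w + 1 / 2 ^ w := by ring
      rw [h7]
      rw [abs_le] at h4 h5 ⊢
      constructor <;> linarith [h4.1, h4.2, h5.1, h5.2]
    · obtain ⟨j, rfl⟩ : ∃ j', j = j' + 1 := ⟨j - 1, by omega⟩
      have h4 := hb.2 j (by omega)
      have h6 : Pool.STAT.CDat.g0 w 1 (fun _ i => g (i - 1) - sh) 0 (j + 1) = g j - sh := by
        unfold Pool.STAT.CDat.g0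
        rw [if_neg (by omega)]
        rfl
      rw [Pool.STAT.CLO.pb_succ, hPh, h6]
      rw [hVi _ j (by omega), hcls ω hω, Pool.STAT.CLO.eval_tb] at h4
      refine h4.trans ?_
      refine div_le_div_of_nonneg_right (by norm_num) (by positivity)
  refine ⟨B, fun y => V (C.pt 0 y), fun s => V (C.li 0 s), h1, ?_, ⟨fun y i => hVd _ _,
    fun s i => hVd _ _, fun y i => hVp _ _, fun s i => hVp _ _, fun ω hω i hi => ?_,
    fun ω hω i hi b hb => ?_, fun ω hω i hi b hb l hl => ?_⟩, fun ω hω l hl => ?_⟩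
  · have h9 : (K' : ℝ) ^ (0 + 1) = K' := by rw [zero_add, pow_one]
    rw [h9] at h2
    exact h2
  · have h4 := h3.pos 0 le_rfl ω hω (i + 1) (by omega) (by omega)
    rw [hPh] at h4
    simp only [Nat.add_sub_cancel] at h4
    show |F.x ω (c i) - eval (Pool.GEN.bt F ω) (V (C.pt 0 (Pool.PB.ptr F J ω)) i)| ≤ _
    rw [hVi _ i hi, hcls ω hω, Pool.STAT.CLO.eval_tb]
    have hX : Pool.STAT.CLO.pb c (Pool.GEN.bt F ω) = Pool.STAT.cx F (fun i => c (i - 1)) ω := by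
      funext j
      rcases Nat.eq_zero_or_pos j with rfl | hj
      · rw [Pool.STAT.CLO.pb_zero]
        exact (if_pos rfl).symm
      · obtain ⟨j, rfl⟩ : ∃ j', j = j' + 1 := ⟨j - 1, by omega⟩
        rw [Pool.STAT.CLO.pb_succ]
        exact (if_neg (by omega)).symm
    rw [hX]
    exact h4
  · show |eval b (V (C.pt 0 (Pool.PB.ptr F J ω)) i) - eval b (V (C.li 0 (Pool.KSAT.slam F w ω)) i)| ≤ _
    rw [hcls ω hω, sub_self, abs_zero]
    positivity
  · have h4 := h8 0 le_rfl ω hω (l + 1) (i + 1) (by omega) (by omega) (by omega) (Pool.STAT.CLO.pb c b)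
      (hbox ω hω i hi b hb)
    show |eval b (pderiv (some (c l)) (V (C.pt 0 (Pool.PB.ptr F J ω)) i))| ≤ _
    rw [hVi _ i hi, hcls ω hω, Pool.STAT.CLO.pd_tb (n := n) hInj hi.le hl
      (h3.tri 0 le_rfl _ (i + 1) (by omega) (by omega))]
    rw [hPh] at h4
    refine h4.trans (pow_le_pow_right₀ (by norm_num) ?_)
    have h5 := Pool.W.ISO.nlp_shift (fun i => g i - sh) l i
    omega
  · show V (C.pt 0 (Pool.PB.ptr F J ω)) l = V (C.li 0 (Pool.KSAT.slam F w ω)) l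
    rw [hcls ω hω]

end Pool.W.ISO
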