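import Pool.Agent.H2.GEN.ChG
import Pool.Agent.H3.W.Nlp
import Pool.Agent.H31.W1.H80.GEN.Chn

/-!
# Larger natural boxes

A polynomial which is bounded on a natural box is bounded on larger natural boxes (`nbx_grow`); the
exponent of the growth in the direction of the coordinate `c j` is the product of the degree and of
the classes of the labels after `j`. Consequently the sides of a chain may be enlarged
(`chN_grow`).
-/

set_option autoImplicit false

namespace Pool.W.CHT

open Pool.CHT

open Finset Real MvPolynomial
open Pool.Agent.H49.Ent Pool.Agent.H32.Dense Pool.STK Pool.KA Pool.KSAT Pool.K2S Pool.PB Pool.S6C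
open Pool.GEN

variable {m J : ℕ}

/-! ### One variable -/


/-! ### The curves -/


/-! ### The growth -/


/-! ### Chains with larger sides -/


theorem nlp_le {g g' : ℕ → ℕ} {l i : ℕ} (h : ∀ j ≤ i, g' j ≤ g j) :
    Pool.W.GEN.nlp g l i ≤ Pool.W.GEN.nlp g' l i + ∑ j ∈ range i, (g j - g' j) := by
  unfold Pool.W.GEN.nlp
  have h1 : (Finset.range (i + 1)).sup g ≤
      (Finset.range (i + 1)).sup g' + (∑ j ∈ range i, (g j - g' j) + (g i - g' i)) := by
    refine Finset.sup_le fun j hj => ?_
    have h2 := Finset.le_sup (f := g') hj
    have hj' := Nat.lt_succ_iff.1 (mem_range.1 hj)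
    have h4 := h j hj'
    have h3 : g j - g' j ≤ ∑ j ∈ range (i + 1), (g j - g' j) :=
      Finset.single_le_sum (f := fun j => g j - g' j) (fun _ _ => Nat.zero_le _)
        (mem_range.2 (Nat.lt_succ_of_le hj'))
    rw [sum_range_succ] at h3
    omega
  have h5 : (Finset.range (i + 1)).sup g ≤
      max ((Finset.range (i + 1)).sup g' + ∑ j ∈ range i, (g j - g' j)) (g i) := by
    refine Finset.sup_le fun j hj => ?_
    have hj' := Nat.lt_succ_iff.1 (mem_range.1 hj)
    rcases Nat.lt_or_ge j i with h6 | h6
    · refine le_trans ?_ (le_max_left _ _)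
      have h2 := Finset.le_sup (f := g') hj
      have h4 := h j hj'
      have h3 : g j - g' j ≤ ∑ j ∈ range i, (g j - g' j) :=
        Finset.single_le_sum (f := fun j => g j - g' j) (fun _ _ => Nat.zero_le _)
          (mem_range.2 h6)
      omega
    · rw [show j = i by omega]
      exact le_max_right _ _
  have h7 := h i le_rfl
  omega


end Pool.W.CHT
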