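import Pool.Agent.H2.GEN.ChS
import Pool.Agent.H3.W.Nlp
import Pool.Agent.H31.W1.H80.GEN.Chn

/-!
# The slope law for chains

A chain of labels on natural boxes of radius `2 ^ (-a)` gives, on a large subevent, a chain on
natural boxes of radius `2 ^ (-(a + v))`, all of whose precisions increase by `v`, up to the defect
of the times (`ch_slope`).
-/

set_option autoImplicit false

namespace Pool.W.CHT

open Pool.CHT

open Finset Real MvPolynomial
open Pool.Agent.H49.Ent Pool.Agent.H32.Dense Pool.STK Pool.KA Pool.KSAT Pool.K2S Pool.PB Pool.S6C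
open Pool.GEN
open Pool.FLF (Fam.sub)
open Pool.PB.Trl (rt rt_mem t_rt)

variable {m J : ℕ}

/-! ### The curve between two points of a natural box -/


/-! ### The rounding of the point -/


/-- **The rounding**: the natural boxes and the labels at points of the same cell of the resolution
`J`. -/
theorem near_cell (r : ℕ) (K : ℕ → ℕ) : ∃ c₀ : ℕ, ∀ {m : ℕ} {c : ℕ → Fin m}
    {G : ℕ → MvPolynomial (Option (Fin m)) ℝ} {g : ℕ → ℕ} {a e J v : ℕ}
    {x : Option (Fin m) → ℝ}, Set.InjOn c (Set.Iio r) →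
    (∀ l, (G l).totalDegree ≤ K l) → (∀ l, Pool.GEN.DepC c l (G l)) →
    (∀ l < r, |x (some (c l)) - eval x (G l)| ≤ 1 / 2 ^ g l) →
    (∀ i < r, ∀ b, Pool.GEN.NBx c G g a (x none) i b → ∀ l < i,
      |eval b (pderiv (some (c l)) (G i))| ≤ 2 ^ (e + Pool.W.GEN.nlp g l i)) →
    (∀ i < r, e + g i + v + c₀ ≤ J) →
    ∀ i ≤ r, ∀ y : Option (Fin m) → ℝ, y none = x none →
      (∀ l < i, |y (some (c l)) - x (some (c l))| ≤ 1 / 2 ^ J) →
      (∀ l < i, |y (some (c l)) - eval y (G l)| ≤ 4 / 2 ^ g l) ∧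
        (i < r → |eval y (G i) - eval x (G i)| ≤ 1 / 4 / 2 ^ (g i + v)) := by
  obtain ⟨c₁, h₁⟩ := Pool.CHT.nbx_dbl r K
  obtain ⟨c₂, hc₂⟩ := pow_unbounded_of_one_lt (4 * (r : ℝ)) (one_lt_two (α := ℝ))
  refine ⟨c₁ + c₂ + 2, ?_⟩
  intro m c G g a e J v x hc hdeg hdep hpos hlip hJ i
  induction i with
  | zero =>
    intro _ y hy _
    refine ⟨fun l hl => absurd hl (Nat.not_lt_zero l), fun h0 => ?_⟩
    have h1 : eval y (G 0) = eval x (G 0) := hdep 0 _ _ hy fun l hl => absurd hl (Nat.not_lt_zero l)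
    rw [h1, sub_self, abs_zero]
    positivity
  | succ i ih =>
    intro hi y hy hyx
    have hir : i < r := hi
    have ih' := ih hir.le
    have hbox : ∀ l < i + 1, |y (some (c l)) - eval y (G l)| ≤ 4 / 2 ^ g l := by
      intro l hl
      obtain ⟨k1, k2⟩ := ih' y hy fun l hl => hyx l (by omega)
      rcases Nat.lt_or_ge l i with h2 | h2
      · exact k1 l h2
      · have : l = i := by omega
        subst this
        have h3 := k2 hir
        have h4 := hpos l hir
        have h5 := hyx l (by omega)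
        have h6 : (1 : ℝ) / 2 ^ J ≤ 1 / 2 ^ g l := Pool.PB.inv_mono (by
          have := hJ l hir
          omega)
        have h7 : (1 : ℝ) / 4 / 2 ^ (g l + v) ≤ 1 / 2 ^ g l := by
          rw [div_div]
          refine one_div_le_one_div_of_le (by positivity) ?_
          have : (2 : ℝ) ^ g l ≤ 2 ^ (g l + v) := pow_le_pow_right₀ (by norm_num) (by omega)
          have h0 : (0 : ℝ) < 2 ^ (g l + v) := by positivity
          linarith
        have h8 : (4 : ℝ) / 2 ^ g l = 4 * (1 / 2 ^ g l) := by ring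
        have h9 : (0 : ℝ) ≤ 1 / 2 ^ g l := by positivity
        rw [h8]
        rw [abs_le] at h3 h4 h5 ⊢
        constructor <;> linarith [h3.1, h3.2, h4.1, h4.2, h5.1, h5.2]
    refine ⟨hbox, fun hi1 => ?_⟩
    -- the gradient of the label `i + 1` near the point
    have hsup : e + (Finset.range (i + 2)).sup g + v + (c₁ + c₂ + 2) ≤ J := by
      have h2 : (Finset.range (i + 2)).sup g ≤ J - (e + v + (c₁ + c₂ + 2)) := by
        refine Finset.sup_le fun j hj => ?_
        have := hJ j (by rw [mem_range] at hj; omega)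
        omega
      have h3 := hJ (i + 1) hi1
      omega
    have hnlp : ∀ l < i + 1, g (i + 1) + Pool.W.GEN.nlp g l (i + 1) ≤ (Finset.range (i + 2)).sup g := by
      intro l hl
      unfold Pool.W.GEN.nlp
      have h2 : (Finset.range ((i + 1) + 1)).sup g ≤ (Finset.range (i + 2)).sup g :=
        Finset.sup_mono fun j hj => by
          rw [mem_range] at hj ⊢
          omega
      have h3 : g (i + 1) ≤ (Finset.range ((i + 1) + 1)).sup g :=
        Finset.le_sup (f := g) (mem_range.2 (by omega))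
      omega
    obtain ⟨L, hL⟩ : ∃ L : ℝ, L = 2 ^ (c₁ + e + (Finset.range (i + 2)).sup g) / 2 ^ g (i + 1) :=
      ⟨_, rfl⟩
    have hL0 : 0 ≤ L := by rw [hL]; positivity
    have h2 := Pool.CHT.mv_chain (hdep (i + 1)) (b := x) (b' := y) hL0
      (by positivity : (0 : ℝ) ≤ 1 / 2 ^ J) hy hyx (by
      intro z hz hzx l hl
      have hzb : ∀ l < i + 1, |z (some (c l)) - eval z (G l)| ≤ 4 / 2 ^ g l := by
        intro l hl
        obtain ⟨k1, k2⟩ := ih' z hz fun l hl => hzx l (by omega)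
        rcases Nat.lt_or_ge l i with h2 | h2
        · exact k1 l h2
        · have : l = i := by omega
          subst this
          have h3 := k2 hir
          have h4 := hpos l hir
          have h5 := hzx l (by omega)
          have h6 : (1 : ℝ) / 2 ^ J ≤ 1 / 2 ^ g l := Pool.PB.inv_mono (by
            have := hJ l hir
            omega)
          have h7 : (1 : ℝ) / 4 / 2 ^ (g l + v) ≤ 1 / 2 ^ g l := by
            rw [div_div]
            refine one_div_le_one_div_of_le (by positivity) ?_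
            have : (2 : ℝ) ^ g l ≤ 2 ^ (g l + v) := pow_le_pow_right₀ (by norm_num) (by omega)
            have h0 : (0 : ℝ) < 2 ^ (g l + v) := by positivity
            linarith
          have h8 : (4 : ℝ) / 2 ^ g l = 4 * (1 / 2 ^ g l) := by ring
          have h9 : (0 : ℝ) ≤ 1 / 2 ^ g l := by positivity
          rw [h8]
          rw [abs_le] at h3 h4 h5 ⊢
          constructor <;> linarith [h3.1, h3.2, h4.1, h4.2, h5.1, h5.2]
      have h3 := h₁ (a := a) (t := x none) (M := 2 ^ (e + Pool.W.GEN.nlp g l (i + 1))) hi1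
        (hc.mono fun j hj => lt_trans hj hi1) hdeg hdep (Pool.GEN.DepC.pderiv (hdep (i + 1)) l)
        (Pool.GEN.totalDegree_pdσ (hdeg (i + 1)) _) (by positivity)
        (fun b hb => hlip (i + 1) hi1 b hb l hl) z (by
          rw [hz, sub_self, abs_zero]; positivity) hzb
      refine h3.trans ?_
      rw [hL, le_div_iff₀ (by positivity), ← pow_add, ← pow_add]
      refine pow_le_pow_right₀ (by norm_num) ?_
      have := hnlp l hl
      omega)
    refine h2.trans ?_
    have h3 : ((i + 1 : ℕ) : ℝ) ≤ r := by exact_mod_cast hi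
    have h4 : (r : ℝ) ≤ 2 ^ c₂ / 4 := by linarith
    have h5 : L * (((i + 1 : ℕ) : ℝ) * (1 / 2 ^ J)) ≤
        2 ^ (c₁ + e + (Finset.range (i + 2)).sup g) / 2 ^ g (i + 1) * (2 ^ c₂ / 4 * (1 / 2 ^ J)) := by
      rw [hL]
      refine mul_le_mul_of_nonneg_left ?_ (by positivity)
      exact mul_le_mul_of_nonneg_right (h3.trans h4) (by positivity)
    refine h5.trans ?_
    have h6 : (2 : ℝ) ^ (c₁ + e + (Finset.range (i + 2)).sup g) / 2 ^ g (i + 1) *
        (2 ^ c₂ / 4 * (1 / 2 ^ J)) =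
        1 / 4 * (2 ^ (c₁ + e + (Finset.range (i + 2)).sup g + c₂) / (2 ^ g (i + 1) * 2 ^ J)) := by
      rw [pow_add (2 : ℝ) (c₁ + e + (Finset.range (i + 2)).sup g) c₂]
      field_simp
    rw [h6, div_eq_mul_one_div (1 / 4 : ℝ)]
    refine mul_le_mul_of_nonneg_left ?_ (by norm_num)
    rw [div_le_div_iff₀ (by positivity) (by positivity), one_mul, ← pow_add, ← pow_add]
    refine pow_le_pow_right₀ (by norm_num) ?_
    omega

/-! ### The slope law -/


theorem nlp_shift {g : ℕ → ℕ} {v u l i : ℕ} (h : (i + 1) * u ≤ v) :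
    Pool.W.GEN.nlp g l i ≤ Pool.W.GEN.nlp (fun i => g i + v - (i + 1) * u) l i := by
  unfold Pool.W.GEN.nlp
  have h1 : (Finset.range (i + 1)).sup g ≤
      (Finset.range (i + 1)).sup (fun i => g i + v - (i + 1) * u) + (i + 1) * u - v := by
    refine Finset.sup_le fun j hj => ?_
    have h2 := Finset.le_sup (f := fun i => g i + v - (i + 1) * u) hj
    have hj' := mem_range.1 hj
    have h3 : (j + 1) * u ≤ (i + 1) * u := Nat.mul_le_mul_right u (by omega)
    have h4 : g j + v - (j + 1) * u ≤ (Finset.range (i + 1)).sup (fun i => g i + v - (i + 1) * u) := h2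
    omega
  show _ ≤ (Finset.range (i + 1)).sup (fun i => g i + v - (i + 1) * u) - (g i + v - (i + 1) * u)
  omega

/-- **The slope law for chains.** The label `i` loses `(i + 1) u` digits. -/
theorem ch_slope' (m r : ℕ) (K : ℕ → ℕ) (hK : ∀ i, 1 ≤ K i) : ∃ (C₁ : ℝ) (c₀ : ℕ), 1 ≤ C₁ ∧
    ∀ (J : ℕ) (F : Pool.KA.Fam m J) (c : ℕ → Fin m) (a w e v u : ℕ) (g : ℕ → ℕ) (A : F.Ω → Prop)
      (G : Pool.GEN.PtT F → ℕ → MvPolynomial (Option (Fin m)) ℝ)
      (H : Pool.GEN.LnT F → ℕ → MvPolynomial (Option (Fin m)) ℝ) (θ : ℝ) (hA : 0 < Pool.K2S.Pe F.p A),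
      Set.InjOn c (Set.Iio r) → w ≤ a → w ≤ J → (∀ i < r, e + g i + v + c₀ ≤ J) → r * u + 1 ≤ v → 0 ≤ θ → (Pool.FLF.Fam.sub F A hA).Tm θ →
      C₁ * (θ + 1) ≤ ((J : ℝ) - w) * Real.log 2 → Real.exp (C₁ * (θ + 1)) ≤ 2 ^ u →
      Pool.W.GEN.ChOK F c r K a w e g A G H →
      ∃ B : F.Ω → Prop, Pool.K2S.Sub B A ∧ Pool.K2S.Pe F.p A / 2 ≤ Pool.K2S.Pe F.p B ∧
        Pool.W.GEN.ChOK F c r K (a + v) w (e + c₀) (fun i => g i + v - (i + 1) * u) B
          (fun y i => Pool.GEN.Gno (c i) J J (fun y => G y i) y)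
          (fun s i => Pool.GEN.Hno (c i) (fun s => H s i) s) ∧
        ∀ ω, A ω → ∀ i < r, ∀ b : Option (Fin m) → ℝ,
          |eval b (Pool.GEN.Gno (c i) J J (fun y => G y i) (Pool.PB.ptr F J ω)) - eval b (G (Pool.PB.ptr F J ω) i)| ≤
            2 / 2 ^ g i := by
  classical
  obtain ⟨Km, hKm⟩ : ∃ Km, Km = (range r).sup K := ⟨_, rfl⟩
  have hKi : ∀ i < r, K i ≤ Km := fun i hi => by
    rw [hKm]; exact Finset.le_sup (f := K) (mem_range.2 hi)
  obtain ⟨D, hD⟩ : ∃ D, D = ∑ i ∈ range r, K i * Pool.CHT.dga K i := ⟨_, rfl⟩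
  have hDi : ∀ i < r, K i * Pool.CHT.dga K i ≤ D := fun i hi => by
    rw [hD]
    exact Finset.single_le_sum (f := fun i => K i * Pool.CHT.dga K i) (fun _ _ => Nat.zero_le _)
      (mem_range.2 hi)
  obtain ⟨C, hC, hat⟩ := Pool.CHT.slope_at D
  obtain ⟨C₀, hC₀, hrem⟩ := Pool.PZ.Zrt.rem_ev (m := m) (2 * Km)
  obtain ⟨c₁, h₁⟩ := Pool.CHT.nbx_dbl r K
  obtain ⟨c₂, h₂⟩ := Pool.W.CHT.near_cell r K
  obtain ⟨R, hR⟩ : ∃ R : ℝ, R = 4 * r + 1 := ⟨_, rfl⟩
  have hR1 : 1 ≤ R := by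
    rw [hR]
    have : (0 : ℝ) ≤ r := Nat.cast_nonneg r
    linarith
  obtain ⟨D', hD'⟩ : ∃ D' : ℝ, D' = 2 * C * (2 ^ c₁ + R) + 1 := ⟨_, rfl⟩
  have hc₁0 : (0 : ℝ) < 2 ^ c₁ := by positivity
  have hD'1 : 1 ≤ D' := by
    rw [hD']
    have : 0 ≤ 2 * C * (2 ^ c₁ + R) := by positivity
    linarith
  have hlD : 0 ≤ Real.log D' := Real.log_nonneg hD'1
  refine ⟨C₀ + Real.log D' + D', c₁ + c₂ + 2, by linarith, ?_⟩
  intro J F c a w e v u g A G H θ hA hc hwa hwJ hJ huv hθ hTm hN hu hL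
  obtain ⟨E, hE⟩ : ∃ E : ℝ, E = Real.exp (C₀ * (θ + 1)) := ⟨_, rfl⟩
  have hE1 : 1 ≤ E := by
    rw [hE, Real.one_le_exp_iff]
    have : 0 ≤ θ + 1 := by linarith only [hθ]
    nlinarith only [hC₀, hθ]
  have hDE : D' * E ≤ 2 ^ u := by
    refine le_trans ?_ hu
    have h1 : Real.exp ((C₀ + Real.log D' + D') * (θ + 1)) =
        E * Real.exp ((Real.log D' + D') * (θ + 1)) := by
      rw [hE, ← Real.exp_add]
      congr 1
      ring
    rw [h1, mul_comm D']
    refine mul_le_mul_of_nonneg_left ?_ (by linarith only [hE1])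
    calc D' = Real.exp (Real.log D') := (Real.exp_log (by linarith only [hD'1])).symm
      _ ≤ _ := Real.exp_le_exp.2 (by nlinarith only [hθ, hlD, hD'1])
  -- the heights of the lines
  obtain ⟨q, hq⟩ : ∃ q : Pool.GEN.LnT F → ℕ → Polynomial ℝ, q = fun s i =>
      Pool.GEN.qso (c i) (fun s => H s i) s w := ⟨_, rfl⟩
  have hqd : ∀ s, ∀ i < r, (q s i).natDegree ≤ Km := by
    intro s i hi
    rw [hq]
    exact Pool.GEN.deg_qso _ _ _ _ ((hK i).trans (hKi i hi)) ((hL.degH s i).trans (hKi i hi))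
  obtain ⟨Q, hQ⟩ : ∃ Q : Pool.GEN.LnT F → Polynomial ℝ, Q = fun s =>
      ∑ i ∈ range r, (Polynomial.C ((2 : ℝ) ^ g i) * q s i) ^ 2 := ⟨_, rfl⟩
  have hQe : ∀ s τ, (Q s).eval τ = ∑ i ∈ range r, (2 ^ g i * (q s i).eval τ) ^ 2 := by
    intro s τ
    rw [hQ]
    simp only [Polynomial.eval_finsetSum, Polynomial.eval_pow, Polynomial.eval_mul,
      Polynomial.eval_C]
  have hQd : ∀ s, (Q s).natDegree ≤ 2 * Km := by
    intro s
    rw [hQ]
    refine Polynomial.natDegree_sum_le_of_forall_le _ _ fun i hi => ?_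
    refine Polynomial.natDegree_pow_le.trans (Nat.mul_le_mul_left 2 ?_)
    exact (Polynomial.natDegree_C_mul_le _ _).trans (hqd s i (mem_range.1 hi))
  have hown : ∀ ω, A ω → ∀ i < r, |(q (Pool.KSAT.slam F w ω) i).eval (Pool.PB.Trl.rt F w ω)| ≤ 2 / 2 ^ g i := by
    intro ω hω i hi
    rw [hq]
    show |(Pool.GEN.qso (c i) (fun s => H s i) (Pool.KSAT.slam F w ω) w).eval (Pool.PB.Trl.rt F w ω)| ≤ 2 / 2 ^ g i
    rw [Pool.GEN.eval_qso, ← Pool.PB.Trl.t_rt F hwJ, Pool.GEN.eso_at]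
    have h1 := hL.pos ω hω i hi
    have h3 := hL.agr ω hω i hi (Pool.GEN.bt F ω) (hL.self hω hi.le)
    have h4 : (2 : ℝ) / 2 ^ g i = 1 / 2 ^ g i + 1 / 2 ^ g i := by ring
    rw [h4]
    rw [abs_le] at h1 h3 ⊢
    constructor <;> linarith only [h1.1, h1.2, h3.1, h3.2]
  obtain ⟨B, hBA, hBP, hB⟩ := hrem J F A hA w Q R θ hwJ hQd (by linarith only [hR1]) hθ hTm (by
      refine le_trans ?_ hN
      refine mul_le_mul_of_nonneg_right ?_ (by linarith only [hθ])
      linarith only [hlD, hD'1]) (fun ω hω => by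
      rw [hQe]
      have h1 : ∀ i ∈ range r, (2 ^ g i * (q (Pool.KSAT.slam F w ω) i).eval (Pool.PB.Trl.rt F w ω)) ^ 2 ≤ 4 := by
        intro i hi
        have h2 := hown ω hω i (mem_range.1 hi)
        have h3 : |2 ^ g i * (q (Pool.KSAT.slam F w ω) i).eval (Pool.PB.Trl.rt F w ω)| ≤ 2 := by
          rw [abs_mul, abs_of_pos (by positivity : (0 : ℝ) < 2 ^ g i)]
          rw [le_div_iff₀ (by positivity)] at h2
          linarith only [h2]
        have h4 := abs_le.1 h3
        nlinarith only [h4.1, h4.2]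
      have h2 : 0 ≤ ∑ i ∈ range r, (2 ^ g i * (q (Pool.KSAT.slam F w ω) i).eval (Pool.PB.Trl.rt F w ω)) ^ 2 :=
        Finset.sum_nonneg fun i _ => sq_nonneg _
      rw [abs_of_nonneg h2]
      refine (Finset.sum_le_sum h1).trans ?_
      rw [Finset.sum_const, card_range, nsmul_eq_mul, hR]
      linarith)
  have hBq : ∀ ω, B ω → ∀ i < r, ∀ τ ∈ Set.Icc (0 : ℝ) 1,
      |(Pool.GEN.qso (c i) (fun s => H s i) (Pool.KSAT.slam F w ω) w).eval τ| ≤ E * R / 2 ^ g i := by
    intro ω hω i hi τ hτ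
    have h1 := hB ω hω τ hτ
    rw [hQe, ← hE] at h1
    have h2 : (2 ^ g i * (q (Pool.KSAT.slam F w ω) i).eval τ) ^ 2 ≤
        ∑ i ∈ range r, (2 ^ g i * (q (Pool.KSAT.slam F w ω) i).eval τ) ^ 2 :=
      Finset.single_le_sum (f := fun i => (2 ^ g i * (q (Pool.KSAT.slam F w ω) i).eval τ) ^ 2)
        (fun _ _ => sq_nonneg _) (mem_range.2 hi)
    have h3 := h2.trans ((le_abs_self _).trans h1)
    have h4 : 1 ≤ E * R := by nlinarith only [hE1, hR1]
    have h5 : |2 ^ g i * (q (Pool.KSAT.slam F w ω) i).eval τ| ≤ E * R := by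
      refine abs_le_of_sq_le_sq (h3.trans ?_) (by linarith only [h4])
      nlinarith only [h4]
    rw [abs_mul, abs_of_pos (by positivity : (0 : ℝ) < 2 ^ g i)] at h5
    rw [le_div_iff₀ (by positivity)]
    have h6 : (Pool.GEN.qso (c i) (fun s => H s i) (Pool.KSAT.slam F w ω) w) = q (Pool.KSAT.slam F w ω) i := by rw [hq]
    rw [h6]
    linarith only [h5]
  -- the visible constants
  obtain ⟨δ, hδ⟩ : ∃ δ : Pool.GEN.PtT F → ℕ → ℝ, δ = fun y i =>
      (y.1 (c i) : ℝ) / 2 ^ J - eval (Pool.GEN.bho J J y) (G y i) := ⟨_, rfl⟩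
  have hGn : ∀ y i b, eval b (Pool.GEN.Gno (c i) J J (fun y => G y i) y) = eval b (G y i) + δ y i := by
    intro y i b
    rw [hδ]
    unfold Pool.GEN.Gno
    rw [map_add, eval_C]
  have hcell : ∀ ω, A ω → ∀ i < r, |eval (Pool.GEN.bho J J (Pool.PB.ptr F J ω)) (G (Pool.PB.ptr F J ω) i) -
      eval (Pool.GEN.bt F ω) (G (Pool.PB.ptr F J ω) i)| ≤ 1 / 4 / 2 ^ (g i + v) := by
    intro ω hω i hi
    refine ((h₂ (x := Pool.GEN.bt F ω) (a := a) (e := e) (J := J) (v := v) hc (hL.degG _) (hL.depG _)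
      (fun l hl => hL.pos ω hω l hl) (fun i hi b hb l hl => hL.lip ω hω i hi b hb l hl)
      (fun i hi => ?_) i hi.le (Pool.GEN.bho J J (Pool.PB.ptr F J ω)) rfl fun l _ => ?_).2 hi)
    · have := hJ i hi
      omega
    · exact Pool.PB.Trl.x_near F J ω (c l)
  have hρ : ∀ ω, A ω → ∀ i < r, |F.x ω (c i) - eval (Pool.GEN.bt F ω) (G (Pool.PB.ptr F J ω) i) -
      δ (Pool.PB.ptr F J ω) i| ≤ 1 / 2 / 2 ^ (g i + v) := by
    intro ω hω i hi
    have h3 := hcell ω hω i hi
    have h4 := Pool.PB.Trl.x_near F J ω (c i)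
    have h5 : δ (Pool.PB.ptr F J ω) i = ((F.X J ω (c i) : ℤ) : ℝ) / 2 ^ J -
        eval (Pool.GEN.bho J J (Pool.PB.ptr F J ω)) (G (Pool.PB.ptr F J ω) i) := by
      rw [hδ]
      rfl
    rw [h5]
    have h6 : (1 : ℝ) / 2 ^ J ≤ 1 / 4 / 2 ^ (g i + v) := by
      rw [div_div]
      refine one_div_le_one_div_of_le (by positivity) ?_
      rw [show (4 : ℝ) = 2 ^ 2 by norm_num, ← pow_add]
      refine pow_le_pow_right₀ (by norm_num) ?_
      have := hJ i hi
      omega
    have h7 : (1 : ℝ) / 2 / 2 ^ (g i + v) = 1 / 4 / 2 ^ (g i + v) + 1 / 4 / 2 ^ (g i + v) := by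
      ring
    rw [h7]
    rw [abs_le] at h3 h4 ⊢
    constructor <;> linarith only [h3.1, h3.2, h4.1, h4.2, h6]
  have hui : ∀ i < r, (i + 1) * u ≤ v := by
    intro i hi
    have : (i + 1) * u ≤ r * u := Nat.mul_le_mul_right u hi
    omega
  -- the new boxes
  have hmove : ∀ ω, A ω → ∀ i < r, ∀ b : Option (Fin m) → ℝ,
      Pool.GEN.NBx c (fun i => Pool.GEN.Gno (c i) J J (fun y => G y i) (Pool.PB.ptr F J ω))
        (fun i => g i + v - (i + 1) * u) (a + v) (F.t ω) i b →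
      |b none - F.t ω| ≤ 2 / 2 ^ (v - i * u) / 2 ^ a ∧ ∀ l < i, |(b (some (c l)) -
        eval b (G (Pool.PB.ptr F J ω) l)) - (F.x ω (c l) - eval (Pool.GEN.bt F ω) (G (Pool.PB.ptr F J ω) l))| ≤
          2 / 2 ^ (v - i * u) / 2 ^ g l := by
    intro ω hω i hi b hb
    constructor
    · refine hb.1.trans ?_
      rw [div_div, ← pow_add]
      calc (1 : ℝ) / 2 ^ (a + v) ≤ 2 / 2 ^ (a + v) := by
            refine div_le_div_of_nonneg_right (by norm_num) (by positivity)
        _ ≤ 2 / 2 ^ (v - i * u + a) := by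
            refine div_le_div_of_nonneg_left (by norm_num) (by positivity) ?_
            exact pow_le_pow_right₀ (by norm_num) (by omega)
    · intro l hl
      have h3 := hb.2 l hl
      simp only at h3
      rw [hGn] at h3
      have h4 := hρ ω hω l (hl.trans hi)
      have h5 : (1 : ℝ) / 2 / 2 ^ (g l + v) ≤ 1 / 2 ^ (g l + v - (l + 1) * u) := by
        rw [div_div]
        refine one_div_le_one_div_of_le (by positivity) ?_
        have h6 : (2 : ℝ) ^ (g l + v - (l + 1) * u) ≤ 2 ^ (g l + v) :=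
          pow_le_pow_right₀ (by norm_num) (by omega)
        have h7 : (0 : ℝ) < 2 ^ (g l + v) := by positivity
        linarith only [h6, h7]
      have h8 : (2 : ℝ) / 2 ^ (g l + v - (l + 1) * u) ≤ 2 / 2 ^ (v - i * u) / 2 ^ g l := by
        rw [div_div, ← pow_add]
        refine div_le_div_of_nonneg_left (by norm_num) (by positivity) ?_
        refine pow_le_pow_right₀ (by norm_num) ?_
        have h9 : (l + 1) * u ≤ i * u := Nat.mul_le_mul_right u hl
        have h10 := hui l (hl.trans hi)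
        omega
      refine le_trans ?_ h8
      have h9 : (2 : ℝ) / 2 ^ (g l + v - (l + 1) * u) = 1 / 2 ^ (g l + v - (l + 1) * u) +
          1 / 2 ^ (g l + v - (l + 1) * u) := by ring
      rw [h9]
      have h10 := h4.trans h5
      rw [abs_le] at h3 h10 ⊢
      constructor <;> linarith only [h3.1, h3.2, h10.1, h10.2]
  have hlam : ∀ i < r, (0 : ℝ) < 2 / 2 ^ (v - i * u) ∧ (2 : ℝ) / 2 ^ (v - i * u) ≤ 1 := by
    intro i hi
    refine ⟨by positivity, ?_⟩
    rw [div_le_one (by positivity)]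
    have h3 : 1 ≤ v - i * u := by
      have : i * u ≤ r * u := Nat.mul_le_mul_right u hi.le
      omega
    calc (2 : ℝ) = 2 ^ 1 := by norm_num
      _ ≤ 2 ^ (v - i * u) := pow_le_pow_right₀ (by norm_num) h3
  have hcJ : ∀ i < r, Set.InjOn c (Set.Iio i) := fun i hi => hc.mono fun j hj => lt_trans hj hi
  refine ⟨B, hBA, hBP, ⟨fun y i => ?_, fun s i => Pool.GEN.deg_Hno _ _ _ (hK i) (hL.degH s i),
    fun y i => ?_, fun s i => ?_, fun ω hω i hi => ?_, fun ω hω i hi b hb => ?_,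
    fun ω hω i hi b hb l hl => ?_⟩, fun ω hω i hi b => ?_⟩
  · unfold Pool.GEN.Gno
    refine (totalDegree_add _ _).trans (max_le (hL.degG y i) ?_)
    rw [totalDegree_C]
    exact Nat.zero_le _
  · intro b b' hn hb
    rw [hGn, hGn, hL.depG y i b b' hn hb]
  · intro b b' hn hb
    rw [Pool.GEN.eval_Hno, Pool.GEN.eval_Hno, hL.depH s i b b' hn hb, hn]
  · rw [hGn]
    have h3 := hρ ω (hBA ω hω) i hi
    have e1 : F.x ω (c i) - (eval (Pool.GEN.bt F ω) (G (Pool.PB.ptr F J ω) i) + δ (Pool.PB.ptr F J ω) i) =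
        F.x ω (c i) - eval (Pool.GEN.bt F ω) (G (Pool.PB.ptr F J ω) i) - δ (Pool.PB.ptr F J ω) i := by ring
    rw [e1]
    refine h3.trans ?_
    rw [div_div]
    refine one_div_le_one_div_of_le (by positivity) ?_
    have h6 : (2 : ℝ) ^ (g i + v - (i + 1) * u) ≤ 2 ^ (g i + v) :=
      pow_le_pow_right₀ (by norm_num) (by omega)
    have h7 : (0 : ℝ) < 2 ^ (g i + v) := by positivity
    linarith only [h6, h7]
  · have hAω := hBA ω hω
    obtain ⟨k1, k2⟩ := hmove ω hAω i hi b hb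
    obtain ⟨l1, l2⟩ := hlam i hi
    have h3 := hat F ω (c i) (fun s => H s i) (Γ := G (Pool.PB.ptr F J ω)) (Gt := G (Pool.PB.ptr F J ω) i)
      (a := a) (w := w) (M := 2 ^ c₁ * (1 / 2 ^ g i)) (S := E * R / 2 ^ g i)
      (ρ := 1 / 2 / 2 ^ (g i + v)) (δ := δ (Pool.PB.ptr F J ω) i) b (hcJ i hi) (hL.degG _) (hL.depG _)
      (hL.depG _ i) (hL.depH _ i) (hL.degG _ i) (hL.degH _ i) (hK i) (hDi i hi) hwa hwJ l1 l2
      (by positivity) (by positivity) (fun b hb hbx => by
        have h4 := h₁ (Q := G (Pool.PB.ptr F J ω) i - H (Pool.KSAT.slam F w ω) i) (M := 1 / 2 ^ g i) hi (hcJ i hi)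
          (hL.degG _) (hL.depG _)
          (fun y y' hn hy => by
            rw [map_sub, map_sub, hL.depG _ i y y' hn hy, hL.depH _ i y y' hn hy])
          ((totalDegree_sub _ _).trans (max_le (hL.degG _ i) (hL.degH _ i)))
          (by positivity)
          (fun b hb => by rw [map_sub]; exact hL.agr ω hAω i hi b hb) b hb hbx
        rw [map_sub] at h4
        exact h4) (fun l hl => hL.pos ω hAω l (hl.trans hi)) (hBq ω hω i hi) k1 k2
      (hρ ω hAω i hi)
    rw [hGn]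
    refine h3.trans ?_
    have h4 : (0 : ℝ) < 2 ^ (g i + v) := by positivity
    have h5 : (1 : ℝ) / 2 ^ (g i + v - (i + 1) * u) = 2 ^ ((i + 1) * u) / 2 ^ (g i + v) := by
      rw [div_eq_div_iff (by positivity) (by positivity), one_mul, ← pow_add]
      congr 1
      have := hui i hi
      omega
    have h6 : (2 : ℝ) / 2 ^ (v - i * u) = 2 * 2 ^ (i * u) / 2 ^ v := by
      rw [div_eq_div_iff (by positivity) (by positivity), mul_assoc, ← pow_add]
      congr 2
      have : i * u ≤ r * u := Nat.mul_le_mul_right u hi.le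
      omega
    rw [h5, h6]
    have h7 : C * (2 ^ c₁ * (1 / 2 ^ g i) + E * R / 2 ^ g i) * (2 * 2 ^ (i * u) / 2 ^ v) +
        1 / 2 / 2 ^ (g i + v) = (2 * C * (2 ^ c₁ + E * R) * 2 ^ (i * u) + 1 / 2) /
          2 ^ (g i + v) := by
      rw [pow_add]
      field_simp
    rw [h7]
    refine div_le_div_of_nonneg_right ?_ h4.le
    have h8 : (2 : ℝ) ^ ((i + 1) * u) = 2 ^ u * 2 ^ (i * u) := by
      rw [← pow_add]
      congr 1
      ring
    have h9 : (1 : ℝ) ≤ 2 ^ (i * u) := one_le_pow₀ (by norm_num)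
    have h10 : 2 * C * (2 ^ c₁ + E * R) + 1 ≤ D' * E := by
      rw [hD']
      have : 2 * C * 2 ^ c₁ ≤ 2 * C * 2 ^ c₁ * E := by
        refine le_mul_of_one_le_right (by positivity) hE1
      nlinarith only [this, hE1]
    rw [h8]
    calc 2 * C * (2 ^ c₁ + E * R) * 2 ^ (i * u) + 1 / 2 ≤
          (2 * C * (2 ^ c₁ + E * R) + 1) * 2 ^ (i * u) := by linarith only [h9]
      _ ≤ 2 ^ u * 2 ^ (i * u) := mul_le_mul_of_nonneg_right (h10.trans hDE) (by positivity)
  · have hAω := hBA ω hω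
    obtain ⟨k1, k2⟩ := hmove ω hAω i hi b hb
    obtain ⟨l1, l2⟩ := hlam i hi
    have e1 : pderiv (some (c l)) (Pool.GEN.Gno (c i) J J (fun y => G y i) (Pool.PB.ptr F J ω)) =
        pderiv (some (c l)) (G (Pool.PB.ptr F J ω) i) := by
      unfold Pool.GEN.Gno
      rw [map_add, pderiv_C, add_zero]
    rw [e1]
    have h3 := h₁ (Q := pderiv (some (c l)) (G (Pool.PB.ptr F J ω) i)) (M := 2 ^ (e + Pool.W.GEN.nlp g l i)) hi
      (hcJ i hi) (hL.degG _) (hL.depG _) (Pool.GEN.DepC.pderiv (hL.depG _ i) l)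
      (Pool.GEN.totalDegree_pdσ (hL.degG _ i) _) (by positivity)
      (fun b hb => hL.lip ω hAω i hi b hb l hl) b (k1.trans (by
        refine div_le_div_of_nonneg_right l2 (by positivity))) (fun j hj => by
        have h4 := k2 j hj
        have h5 := hL.pos ω hAω j (hj.trans hi)
        have h6 : (2 : ℝ) / 2 ^ (v - i * u) / 2 ^ g j ≤ 1 / 2 ^ g j :=
          div_le_div_of_nonneg_right l2 (by positivity)
        have h7 : (4 : ℝ) / 2 ^ g j = 4 * (1 / 2 ^ g j) := by ring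
        have h8 : (0 : ℝ) < 1 / 2 ^ g j := by positivity
        rw [h7]
        have h4' := h4.trans h6
        rw [abs_le] at h4' h5 ⊢
        constructor <;> linarith only [h4'.1, h4'.2, h5.1, h5.2, h8])
    refine h3.trans ?_
    rw [← pow_add]
    refine pow_le_pow_right₀ (by norm_num) ?_
    have := Pool.W.CHT.nlp_shift (g := g) (l := l) (hui i hi)
    omega
  · rw [hGn, add_sub_cancel_left]
    have h3 := hL.pos ω hω i hi
    have h4 := hρ ω hω i hi
    have h5 : (1 : ℝ) / 2 / 2 ^ (g i + v) ≤ 1 / 2 ^ g i := by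
      rw [div_div]
      refine one_div_le_one_div_of_le (by positivity) ?_
      have h6 : (2 : ℝ) ^ g i ≤ 2 ^ (g i + v) := pow_le_pow_right₀ (by norm_num) (by omega)
      have h7 : (0 : ℝ) < 2 ^ (g i + v) := by positivity
      linarith only [h6, h7]
    have h6 : (2 : ℝ) / 2 ^ g i = 1 / 2 ^ g i + 1 / 2 ^ g i := by ring
    rw [h6]
    have h7 := h4.trans h5
    rw [abs_le] at h3 h7 ⊢
    constructor <;> linarith only [h3.1, h3.2, h7.1, h7.2]


end Pool.W.CHT
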