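import Pool.Agent.H2.GEN.Iso
import Pool.Agent.H3.W2.H2.GEN.ChS
import Pool.Agent.H3.W.Nlp
import Pool.Agent.H31.W1.H80.GEN.Chn

/-!
# Labels over re-centred balls

`isoX θ`: the box of the chain is a ball of a chain of the same coordinates, on the same windows,
re-centred at the sample and smaller. `scl`: increments of polynomials on re-centred boxes.
`move_all`: a chain with any sides, on the natural boxes of another chain. `iso_slope`: smaller
radii. `iso_move`: the label on the re-centred boxes of another chain.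
-/

set_option autoImplicit false

namespace Pool.W.ISO

open Pool.ISO

open Finset Real MvPolynomial
open Pool.Agent.H49.Ent Pool.Agent.H32.Dense Pool.STK Pool.KA Pool.KSAT Pool.K2S Pool.PB Pool.S6C
open Pool.GEN Pool.CHT Pool.CHX
open Pool.LBT (LSys Slo Tri ThrOf fl_le' bas_false)
open Pool.LEV (Law)
open Pool.FLF (Fam.sub)

variable {m J : ℕ}

/-! ### The property -/


/-! ### Increments -/


/-! ### Moving a chain -/

/-- **Moving a chain**, with any sides, to the natural boxes. -/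
theorem move_all (D r : ℕ) (hD : 1 ≤ D) : ∃ C : ℕ, ∀ {m J : ℕ} {F : Pool.KA.Fam m J} {c : ℕ → Fin m}
    {i a w e' h : ℕ} {g g' : ℕ → ℕ} {κ κ' : ℝ} {B₀ B' : F.Ω → Prop}
    {G G' : Pool.GEN.PtT F → ℕ → MvPolynomial (Option (Fin m)) ℝ}
    {H' : Pool.GEN.LnT F → ℕ → MvPolynomial (Option (Fin m)) ℝ}, i < r →
    Set.InjOn c (Set.Iio i) → Pool.CHT.RelvF F c i a w g D h κ B₀ G → Pool.K2S.Sub B' B₀ →
    κ' * Pool.K2S.Pe F.p B₀ ≤ Pool.K2S.Pe F.p B' → κ * 2 ^ r ≤ κ' →
    Pool.W.GEN.ChOK F c i (fun _ => D) a w e' g' B' G' H' →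
    ∃ B : F.Ω → Prop, Pool.K2S.Sub B B' ∧ Pool.K2S.Pe F.p B' / 2 ^ i ≤ Pool.K2S.Pe F.p B ∧ ∀ ω, B ω →
      ∀ b, Pool.GEN.NBx c (G (Pool.PB.ptr F J ω)) g a (F.t ω) i b →
        ∀ j < i, |b (some (c j)) - eval b (G' (Pool.PB.ptr F J ω) j)| ≤ 2 ^ (C * (h + 1)) / 2 ^ g' j := by
  obtain ⟨c₀, D₁, hD₁, hdil⟩ := Pool.CHT.nbx_dil (r + 1) (fun _ => D)
  refine ⟨(c₀ + 1) * (1 + D₁) ^ (r + 1), ?_⟩
  intro m J F c i a w e' h g g' κ κ' B₀ B' G G' H' hi hc hR hB' hP' hκ hL
  have hlexC : ∀ j ≤ r + 1, Pool.CHT.lex h c₀ D₁ j ≤ (c₀ + 1) * (1 + D₁) ^ (r + 1) * (h + 1) := by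
    intro j hj
    refine (Pool.CHT.lex_le h c₀ D₁ j).trans ?_
    have h1 : (1 + D₁) ^ j ≤ (1 + D₁) ^ (r + 1) := Nat.pow_le_pow_right (by omega) hj
    calc (h + c₀) * (1 + D₁) ^ j ≤ ((c₀ + 1) * (h + 1)) * (1 + D₁) ^ (r + 1) :=
          Nat.mul_le_mul (by nlinarith) h1
      _ = _ := by ring
  -- the two sides on the natural boxes
  have htwo : ∀ j < i, ∀ ω, B' ω → ∀ b, Pool.GEN.NBx c (G (Pool.PB.ptr F J ω)) g a (F.t ω) i b →
      (∀ j' < j, |b (some (c j')) - eval b (G' (Pool.PB.ptr F J ω) j')| ≤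
        2 ^ Pool.CHT.lex h c₀ D₁ j / 2 ^ g' j') →
      |eval b (G' (Pool.PB.ptr F J ω) j) - eval b (H' (Pool.KSAT.slam F w ω) j)| ≤
        2 ^ (c₀ + Pool.CHT.lex h c₀ D₁ j * D₁) * (1 / 2 ^ g' j) := by
    intro j hj ω hω b hb hbj
    have h1 := hdil (c := c) (i := j) (G := G' (Pool.PB.ptr F J ω))
      (Q := G' (Pool.PB.ptr F J ω) j - H' (Pool.KSAT.slam F w ω) j) (g := g') (a := a) (t := F.t ω)
      (M := 1 / 2 ^ g' j) (Pool.CHT.lex h c₀ D₁ j) (by omega) (hc.mono fun x hx => lt_trans hx hj)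
      (hL.degG _) (hL.depG _)
      (fun y y' hn hy => by rw [map_sub, map_sub, hL.depG _ j y y' hn hy, hL.depH _ j y y' hn hy])
      ((totalDegree_sub _ _).trans (max_le (hL.degG _ j) (hL.degH _ j))) (by positivity)
      (fun b hb => by rw [map_sub]; exact hL.agr ω hω j (by omega) b hb) b hb.1
      (fun j' hj' => hbj j' hj')
    rw [map_sub] at h1
    exact h1
  have key : ∀ j ≤ i, ∃ B : F.Ω → Prop, Pool.K2S.Sub B B' ∧ Pool.K2S.Pe F.p B' / 2 ^ j ≤ Pool.K2S.Pe F.p B ∧ ∀ ω, B ω →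
      ∀ b, Pool.GEN.NBx c (G (Pool.PB.ptr F J ω)) g a (F.t ω) i b → ∀ j' < j,
        |b (some (c j')) - eval b (G' (Pool.PB.ptr F J ω) j')| ≤ 2 ^ Pool.CHT.lex h c₀ D₁ j / 2 ^ g' j' := by
    intro j
    induction j with
    | zero => exact fun _ => ⟨B', fun _ h => h, by simp, fun ω _ b _ j' hj' => by omega⟩
    | succ j ih =>
      intro hj
      obtain ⟨B, k1, k2, k3⟩ := ih (by omega)
      obtain ⟨M, hM⟩ : ∃ M : ℝ, M = 2 ^ (c₀ + Pool.CHT.lex h c₀ D₁ j * D₁) * (1 / 2 ^ g' j) := ⟨_, rfl⟩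
      have hM0 : 0 < M := by rw [hM]; positivity
      have hM1 : (1 : ℝ) / 2 ^ g' j ≤ M := by
        rw [hM]
        exact le_mul_of_one_le_left (by positivity) (one_le_pow₀ (by norm_num))
      obtain ⟨B'', l1, l2, l3⟩ := hR B (fun ω h => hB' ω (k1 ω h)) (by
          have h1 : κ * 2 ^ r * Pool.K2S.Pe F.p B₀ ≤ κ' * Pool.K2S.Pe F.p B₀ :=
            mul_le_mul_of_nonneg_right hκ (Pool.K2S.Pe_nonneg F.isLaw B₀)
          have h2 : κ * Pool.K2S.Pe F.p B₀ * 2 ^ r ≤ Pool.K2S.Pe F.p B' := by linarith [h1, hP']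
          have h3 : (2 : ℝ) ^ j ≤ 2 ^ r := pow_le_pow_right₀ (by norm_num) (by omega)
          rw [div_le_iff₀ (by positivity)] at k2
          rcases le_or_gt (κ * Pool.K2S.Pe F.p B₀) 0 with h4 | h4
          · exact h4.trans (Pool.K2S.Pe_nonneg F.isLaw B)
          · have h5 : κ * Pool.K2S.Pe F.p B₀ * 2 ^ j ≤ Pool.K2S.Pe F.p B * 2 ^ j :=
              (mul_le_mul_of_nonneg_left h3 h4.le).trans (h2.trans k2)
            exact le_of_mul_le_mul_right h5 (by positivity))
        (fun y => X (some (c j)) - G' y j) (fun s => X (some (c j)) - H' s j) M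
        (fun y => (totalDegree_sub _ _).trans (max_le (by rw [totalDegree_X]; exact hD)
          (hL.degG y j))) (fun s => (totalDegree_sub _ _).trans (max_le (by
            rw [totalDegree_X]; exact hD) (hL.degH s j))) (fun y b b' hn hb => by
          rw [map_sub, map_sub, eval_X, eval_X, hb j (by omega), hL.depG y j b b' hn
            (fun l' hl' => hb l' (by omega))])
        (fun s b b' hn hb => by
          rw [map_sub, map_sub, eval_X, eval_X, hb j (by omega), hL.depH s j b b' hn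
            (fun l' hl' => hb l' (by omega))]) hM0
        (fun ω hω => by
          rw [map_sub, eval_X]
          exact (hL.pos ω (k1 ω hω) j (by omega)).trans hM1) (fun ω hω b hb => by
          rw [map_sub, map_sub, eval_X]
          have := htwo j (by omega) ω (k1 ω hω) b hb (k3 ω hω b hb)
          rw [← hM] at this
          have e1 : b (some (c j)) - eval b (G' (Pool.PB.ptr F J ω) j) - (b (some (c j)) -
              eval b (H' (Pool.KSAT.slam F w ω) j)) = -(eval b (G' (Pool.PB.ptr F J ω) j) -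
                eval b (H' (Pool.KSAT.slam F w ω) j)) := by ring
          rw [e1, abs_neg]
          exact this)
      refine ⟨B'', fun ω h => k1 ω (l1 ω h), ?_, fun ω hω b hb j' hj' => ?_⟩
      · refine le_trans (le_of_eq ?_) ((div_le_div_of_nonneg_right k2 (by norm_num)).trans l2)
        rw [pow_succ]
        field_simp
      · rcases Nat.lt_or_ge j' j with h7 | h7
        · refine (k3 ω (l1 ω hω) b hb j' h7).trans (div_le_div_of_nonneg_right ?_ (by positivity))
          exact pow_le_pow_right₀ (by norm_num) (Pool.CHT.lex_mono hD₁)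
        · have : j' = j := by omega
          subst this
          have h8 := l3 ω hω b hb
          rw [map_sub, eval_X, hM] at h8
          refine h8.trans (le_of_eq ?_)
          show _ = 2 ^ (h + c₀ + Pool.CHT.lex h c₀ D₁ j' * D₁) / 2 ^ g' j'
          rw [add_assoc h, pow_add]
          ring
  obtain ⟨B, k1, k2, k3⟩ := key i le_rfl
  refine ⟨B, k1, k2, fun ω hω b hb j hj => ?_⟩
  refine (k3 ω hω b hb j hj).trans (div_le_div_of_nonneg_right ?_ (by positivity))
  exact pow_le_pow_right₀ (by norm_num) (hlexC i (by omega))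

/-! ### Smaller radii -/


/-! ### The label on the re-centred boxes of another chain -/


/-- Shorter windows. -/
theorem chOK_win {F : Pool.KA.Fam m J} {c : ℕ → Fin m} {r : ℕ} {K : ℕ → ℕ} {a w w' e : ℕ} {g : ℕ → ℕ}
    {A : F.Ω → Prop} {G : Pool.GEN.PtT F → ℕ → MvPolynomial (Option (Fin m)) ℝ}
    {H : Pool.GEN.LnT F → ℕ → MvPolynomial (Option (Fin m)) ℝ} (h : Pool.W.GEN.ChOK F c r K a w' e g A G H)
    (hw : w' ≤ w) (hwJ : w ≤ J) : Pool.W.GEN.ChOK F c r K a w e g A G (Pool.ISO.cwn w' w H) :=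
  ⟨h.degG, fun s i => h.degH _ i, h.depG, fun s i => h.depH _ i, h.pos, fun ω hω i hi b hb => by
    rw [Pool.ISO.cwn_slam hw hwJ]
    exact h.agr ω hω i hi b hb, h.lip⟩


end Pool.W.ISO
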