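import Pool.Agent.H2.GEN.IsoC
import Pool.Agent.H3.W2.H2.GEN.ChG
import Pool.Agent.H3.W2.H2.GEN.Iso
import Pool.Agent.H3.W.Nlp
import Pool.Agent.H31.W1.H80.GEN.Chn

/-!
# Re-centred ball charts of a class

`chOK_grow`: larger boxes. `rec_lab`: the re-centred chain with prescribed sides. `iso_lab`: from
balls of a class to smaller radii, with prescribed sides.
-/

set_option autoImplicit false

namespace Pool.W.ISO

open Pool.ISO

open Finset Real MvPolynomial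
open Pool.Agent.H49.Ent Pool.Agent.H32.Dense Pool.STK Pool.KA Pool.KSAT Pool.K2S Pool.PB Pool.S6C
open Pool.GEN Pool.CHT Pool.CHX
open Pool.LBT (LSys Slo Tri ThrOf fl_le' bas_false)
open Pool.LEV (Law)
open Pool.FLF (Fam.sub)

variable {m J : ℕ}

/-! ### Larger boxes -/

/-- **Larger boxes**, with the same labels. -/
theorem chOK_grow (r : ℕ) (K : ℕ → ℕ) : ∃ c₀ : ℕ, ∀ {m J : ℕ} {F : Pool.KA.Fam m J} {c : ℕ → Fin m}
    {a w e e' : ℕ} {g g' : ℕ → ℕ} {A : F.Ω → Prop}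
    {G : Pool.GEN.PtT F → ℕ → MvPolynomial (Option (Fin m)) ℝ}
    {H : Pool.GEN.LnT F → ℕ → MvPolynomial (Option (Fin m)) ℝ}, Set.InjOn c (Set.Iio r) →
    (∀ i < r, g' i ≤ g i) → (∀ i < r, 0 < i → c₀ + Pool.CHT.gls K g g' i ≤ g i - g' i) →
    (∀ i < r, 0 < i → e + c₀ + Pool.CHT.gls K g g' i + ∑ j ∈ range i, (g j - g' j) ≤ e') →
    Pool.W.GEN.ChOK F c r K a w e g A G H → Pool.W.GEN.ChOK F c r K a w e' g' A G H := by
  obtain ⟨D, hD⟩ : ∃ D, D = ∑ i ∈ range r, ∑ j ∈ range i, K i * Pool.CHT.dgp K j i := ⟨_, rfl⟩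
  obtain ⟨C, hC, h⟩ := Pool.CHT.nbx_grow D r
  obtain ⟨c₀, hc₀⟩ := pow_unbounded_of_one_lt C (one_lt_two (α := ℝ))
  refine ⟨c₀, ?_⟩
  intro m J F c a w e e' g g' A G H hc hg h1 h2 hch
  have hDi : ∀ i < r, ∀ j < i, K i * Pool.CHT.dgp K j i ≤ D := by
    intro i hi j hj
    rw [hD]
    calc K i * Pool.CHT.dgp K j i ≤ ∑ j ∈ range i, K i * Pool.CHT.dgp K j i :=
          Finset.single_le_sum (f := fun j => K i * Pool.CHT.dgp K j i) (fun _ _ => Nat.zero_le _)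
            (mem_range.2 hj)
      _ ≤ _ := Finset.single_le_sum (f := fun i => ∑ j ∈ range i, K i * Pool.CHT.dgp K j i)
            (fun _ _ => Nat.zero_le _) (mem_range.2 hi)
  have key : ∀ (y : Pool.GEN.PtT F) (t : ℝ) (i : ℕ) (Q : MvPolynomial (Option (Fin m)) ℝ) (M : ℝ), i < r →
      Pool.GEN.DepC c i Q → Q.totalDegree ≤ K i → (∀ b, Pool.GEN.NBx c (G y) g a t i b → |eval b Q| ≤ M) →
      0 ≤ M → ∀ b, Pool.GEN.NBx c (G y) g' a t i b → |eval b Q| ≤ (if i = 0 then 1 else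
        2 ^ (c₀ + Pool.CHT.gls K g g' i)) * M := by
    intro y t i Q M hi hQ hQd hM hM0 b hb
    rcases Nat.eq_zero_or_pos i with h0 | h0
    · subst h0
      rw [if_pos rfl, one_mul]
      exact hM b ⟨hb.1, fun l hl => absurd hl (Nat.not_lt_zero l)⟩
    · rw [if_neg h0.ne']
      have h3 := h (K := K) hi.le (hc.mono fun x hx => lt_trans hx hi) (hch.degG y) (hch.depG y)
        hQ hQd (hDi i hi) (fun j hj => hg j (hj.trans hi)) hM b hb
      refine h3.trans ?_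
      refine mul_le_mul_of_nonneg_right ?_ hM0
      rw [pow_add]
      exact mul_le_mul_of_nonneg_right hc₀.le (by positivity)
  refine ⟨hch.degG, hch.degH, hch.depG, hch.depH, fun ω hω i hi =>
    (hch.pos ω hω i hi).trans (Pool.PB.inv_mono (hg i hi)), fun ω hω i hi b hb => ?_,
    fun ω hω i hi b hb l hl => ?_⟩
  · have h3 := key (Pool.PB.ptr F J ω) (F.t ω) i (G (Pool.PB.ptr F J ω) i - H (Pool.KSAT.slam F w ω) i) (1 / 2 ^ g i) hi
      (fun b b' hn hb => by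
        rw [map_sub, map_sub, hch.depG _ i b b' hn hb, hch.depH _ i b b' hn hb])
      ((totalDegree_sub _ _).trans (max_le (hch.degG _ i) (hch.degH _ i)))
      (fun b hb => by rw [map_sub]; exact hch.agr ω hω i hi b hb) (by positivity) b hb
    rw [map_sub] at h3
    refine h3.trans ?_
    rcases Nat.eq_zero_or_pos i with h0 | h0
    · rw [if_pos h0, one_mul]
      exact Pool.PB.inv_mono (hg i hi)
    · rw [if_neg h0.ne', mul_one_div, div_le_div_iff₀ (by positivity) (by positivity), one_mul,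
        ← pow_add]
      refine pow_le_pow_right₀ (by norm_num) ?_
      have := h1 i hi h0
      have := hg i hi
      omega
  · have h0 : 0 < i := (Nat.zero_le l).trans_lt hl
    have h3 := key (Pool.PB.ptr F J ω) (F.t ω) i (pderiv (some (c l)) (G (Pool.PB.ptr F J ω) i))
      (2 ^ (e + Pool.W.GEN.nlp g l i)) hi
      (Pool.GEN.DepC.pderiv (hch.depG _ i) l) (Pool.GEN.totalDegree_pdσ (hch.degG _ i) _)
      (fun b hb => hch.lip ω hω i hi b hb l hl) (by positivity) b hb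
    rw [if_neg h0.ne', ← pow_add] at h3
    refine h3.trans (pow_le_pow_right₀ (by norm_num) ?_)
    have h4 := h2 i hi h0
    have h5 := Pool.W.CHT.nlp_le (l := l) (g := g) (g' := g') (i := i) fun j hj => hg j (hj.trans_lt hi)
    omega


/-- **The re-centred chain**, with prescribed sides. -/
theorem rec_lab (m n D : ℕ) (hD : 1 ≤ D) : ∃ (C₁ : ℝ) (C₀ : ℕ), 1 ≤ C₁ ∧
    ∀ (J : ℕ) (F : Pool.KA.Fam m J) (c : ℕ → Fin m) (a w e e' v u : ℕ) (g gg : ℕ → ℕ) (A : F.Ω → Prop)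
      (G : Pool.GEN.PtT F → ℕ → MvPolynomial (Option (Fin m)) ℝ)
      (H : Pool.GEN.LnT F → ℕ → MvPolynomial (Option (Fin m)) ℝ) (θ : ℝ) (hA : 0 < Pool.K2S.Pe F.p A),
      Set.InjOn c (Set.Iio n) → w ≤ a → w ≤ J → (∀ l < n, e + g l + v + C₀ ≤ J) → n * u + 1 ≤ v →
      0 ≤ θ → (Pool.FLF.Fam.sub F A hA).Tm θ → C₁ * (θ + 1) ≤ ((J : ℝ) - w) * Real.log 2 →
      Real.exp (C₁ * (θ + 1)) ≤ 2 ^ u → Pool.W.GEN.ChOK F c n (fun _ => D) a w e g A G H →
      (∀ l < n, gg l + (l + 1) * u ≤ g l + v) →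
      (∀ l < n, 0 < l → gg l + C₀ * (1 + ∑ j ∈ range l, (g j + v - gg j)) + (l + 1) * u ≤
        g l + v) → e + C₀ * (1 + ∑ j ∈ range n, (g j + v - gg j)) ≤ e' →
      ∃ B : F.Ω → Prop, Pool.K2S.Sub B A ∧ Pool.K2S.Pe F.p A / 2 ≤ Pool.K2S.Pe F.p B ∧
        Pool.W.GEN.ChOK F c n (fun _ => D) (a + v) w e' gg B
          (fun y l => Pool.GEN.Gno (c l) J J (fun y => G y l) y)
          (fun s l => Pool.GEN.Hno (c l) (fun s => H s l) s) ∧
        ∀ ω, A ω → ∀ l < n, ∀ b : Option (Fin m) → ℝ,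
          |eval b (Pool.GEN.Gno (c l) J J (fun y => G y l) (Pool.PB.ptr F J ω)) - eval b (G (Pool.PB.ptr F J ω) l)| ≤
            2 / 2 ^ g l := by
  obtain ⟨C₁, c₀, hC₁, hsl⟩ := Pool.W.CHT.ch_slope' m n (fun _ => D) fun _ => hD
  obtain ⟨c₁, hgr⟩ := Pool.W.ISO.chOK_grow n (fun _ => D)
  obtain ⟨c₂, hls⟩ := Pool.ISO.gls_le n D
  refine ⟨C₁, c₀ + c₁ + c₂ + 1, hC₁, ?_⟩
  intro J F c a w e e' v u g gg A G H θ hA hc hwa hwJ hJ hv hθ hTm hN hu hL h0 h1 h2
  obtain ⟨B, k1, k2, k3, k4⟩ := hsl J F c a w e v u g A G H θ hA hc hwa hwJ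
    (fun l hl => by have := hJ l hl; omega) hv hθ hTm hN hu hL
  refine ⟨B, k1, k2, ?_, k4⟩
  have hsum : ∀ l, ∑ j ∈ range l, (g j + v - (j + 1) * u - gg j) ≤
      ∑ j ∈ range l, (g j + v - gg j) := fun l => Finset.sum_le_sum fun j _ => by omega
  have hgl : ∀ l < n, c₀ + c₁ + Pool.CHT.gls (fun _ => D) (fun i => g i + v - (i + 1) * u) gg l +
      ∑ j ∈ range l, (g j + v - (j + 1) * u - gg j) ≤
        (c₀ + c₁ + c₂ + 1) * (1 + ∑ j ∈ range l, (g j + v - gg j)) := by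
    intro l hl
    have h3 := hls (fun i => g i + v - (i + 1) * u) gg l hl
    have h4 := hsum l
    have h5 : c₂ * ∑ j ∈ range l, (g j + v - (j + 1) * u - gg j) ≤
        c₂ * ∑ j ∈ range l, (g j + v - gg j) := Nat.mul_le_mul_left _ h4
    have h6 : (c₀ + c₁ + c₂ + 1) * (1 + ∑ j ∈ range l, (g j + v - gg j)) =
        c₀ + c₁ + c₂ + 1 + (c₀ + c₁) * ∑ j ∈ range l, (g j + v - gg j) +
          c₂ * ∑ j ∈ range l, (g j + v - gg j) + ∑ j ∈ range l, (g j + v - gg j) := by ring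
    omega
  refine hgr hc (fun l hl => ?_) (fun l hl hl0 => ?_) (fun l hl hl0 => ?_) k3
  · show gg l ≤ g l + v - (l + 1) * u
    have := h0 l hl
    omega
  · show _ ≤ g l + v - (l + 1) * u - gg l
    have h3 := h1 l hl hl0
    have h4 := hgl l hl
    omega
  · have h4 := hgl l hl
    have h5 : ∑ j ∈ range l, (g j + v - gg j) ≤ ∑ j ∈ range n, (g j + v - gg j) :=
      Finset.sum_le_sum_of_subset (Finset.range_subset_range.2 hl.le)
    have h6 : (c₀ + c₁ + c₂ + 1) * (1 + ∑ j ∈ range l, (g j + v - gg j)) ≤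
        (c₀ + c₁ + c₂ + 1) * (1 + ∑ j ∈ range n, (g j + v - gg j)) :=
      Nat.mul_le_mul_left _ (by omega)
    omega

/-! ### Classes -/


end Pool.W.ISO
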