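import Pool.Agent.H2.GEN.IsoM
import Pool.Agent.H3.W2.H2.GEN.IsoC
import Pool.Agent.H3.W.Nlp
import Pool.Agent.H31.W1.H80.GEN.Chn

/-!
# Re-centred ball charts for several radii on one event

`rec_labs`, `iso_labs`, `iso_cores`, `iso_ptM`: one ball chart, re-centred at several radii, on one
event.
-/

set_option autoImplicit false

namespace Pool.W.ISO

open Pool.ISO

open Finset Real MvPolynomial
open Pool.Agent.H49.Ent Pool.Agent.H32.Dense Pool.STK Pool.KA Pool.KSAT Pool.K2S Pool.PB Pool.S6C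
open Pool.GEN Pool.CHT Pool.CHX
open Pool.LBT (LSys Slo Tri ThrOf fl_le' bas_false)
open Pool.LEV (Law)
open Pool.FLF (Fam.sub)
open Pool.JTN (TgP)

variable {m J : ℕ}

/-- **The re-centred chains** of one ball, for several radii and prescribed sides, on one event. -/
theorem rec_labs (m n D : ℕ) (hD : 1 ≤ D) : ∃ (C₁ : ℝ) (C₀ : ℕ), 1 ≤ C₁ ∧
    ∀ (M J : ℕ) (F : Pool.KA.Fam m J) (c : ℕ → Fin m) (a w e e' u : ℕ) (v g : ℕ → ℕ) (gg : ℕ → ℕ → ℕ)
      (A : F.Ω → Prop) (G : Pool.GEN.PtT F → ℕ → MvPolynomial (Option (Fin m)) ℝ)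
      (H : Pool.GEN.LnT F → ℕ → MvPolynomial (Option (Fin m)) ℝ) (θ : ℝ), 0 < Pool.K2S.Pe F.p A →
      Set.InjOn c (Set.Iio n) → w ≤ a → w ≤ J →
      (∀ i ≤ M, (∀ l < n, e + g l + v i + C₀ ≤ J) ∧ n * u + 1 ≤ v i ∧
        (∀ l < n, gg i l + (l + 1) * u ≤ g l + v i) ∧
        (∀ l < n, 0 < l → gg i l + C₀ * (1 + ∑ j ∈ range l, (g j + v i - gg i j)) +
          (l + 1) * u ≤ g l + v i) ∧
        e + C₀ * (1 + ∑ j ∈ range n, (g j + v i - gg i j)) ≤ e') → 0 ≤ θ →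
      (∀ (B : F.Ω → Prop), Pool.K2S.Sub B A → Pool.K2S.Pe F.p A ≤ 2 ^ M * Pool.K2S.Pe F.p B → ∀ hB : 0 < Pool.K2S.Pe F.p B,
        (Pool.FLF.Fam.sub F B hB).Tm θ) → C₁ * (θ + 1) ≤ ((J : ℝ) - w) * Real.log 2 →
      Real.exp (C₁ * (θ + 1)) ≤ 2 ^ u → Pool.W.GEN.ChOK F c n (fun _ => D) a w e g A G H →
      ∃ B : F.Ω → Prop, Pool.K2S.Sub B A ∧ Pool.K2S.Pe F.p A ≤ 2 ^ (M + 1) * Pool.K2S.Pe F.p B ∧
        (∀ i ≤ M, Pool.W.GEN.ChOK F c n (fun _ => D) (a + v i) w e' (gg i) B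
          (fun y l => Pool.GEN.Gno (c l) J J (fun y => G y l) y)
          (fun s l => Pool.GEN.Hno (c l) (fun s => H s l) s)) ∧
        ∀ ω, B ω → ∀ l < n, ∀ b : Option (Fin m) → ℝ,
          |eval b (Pool.GEN.Gno (c l) J J (fun y => G y l) (Pool.PB.ptr F J ω)) - eval b (G (Pool.PB.ptr F J ω) l)| ≤
            2 / 2 ^ g l := by
  obtain ⟨C₁, C₀, hC₁, hrec⟩ := Pool.W.ISO.rec_lab m n D hD
  refine ⟨C₁, C₀, hC₁, ?_⟩
  intro M J F c a w e e' u v g gg A G H θ hA hc hwa hwJ hnum hθ hTm hN hu hL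
  -- by induction
  have key : ∀ k ≤ M, ∃ B : F.Ω → Prop, Pool.K2S.Sub B A ∧ Pool.K2S.Pe F.p A ≤ 2 ^ (k + 1) * Pool.K2S.Pe F.p B ∧
      (∀ i ≤ k, Pool.W.GEN.ChOK F c n (fun _ => D) (a + v i) w e' (gg i) B
        (fun y l => Pool.GEN.Gno (c l) J J (fun y => G y l) y)
        (fun s l => Pool.GEN.Hno (c l) (fun s => H s l) s)) ∧
      ∀ ω, B ω → ∀ l < n, ∀ b : Option (Fin m) → ℝ,
        |eval b (Pool.GEN.Gno (c l) J J (fun y => G y l) (Pool.PB.ptr F J ω)) - eval b (G (Pool.PB.ptr F J ω) l)| ≤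
          2 / 2 ^ g l := by
    have step : ∀ k ≤ M, ∀ B : F.Ω → Prop, Pool.K2S.Sub B A → Pool.K2S.Pe F.p A ≤ 2 ^ k * Pool.K2S.Pe F.p B →
        ∃ B' : F.Ω → Prop, Pool.K2S.Sub B' B ∧ Pool.K2S.Pe F.p A ≤ 2 ^ (k + 1) * Pool.K2S.Pe F.p B' ∧
          Pool.W.GEN.ChOK F c n (fun _ => D) (a + v k) w e' (gg k) B'
            (fun y l => Pool.GEN.Gno (c l) J J (fun y => G y l) y)
            (fun s l => Pool.GEN.Hno (c l) (fun s => H s l) s) ∧
          ∀ ω, B' ω → ∀ l < n, ∀ b : Option (Fin m) → ℝ,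
            |eval b (Pool.GEN.Gno (c l) J J (fun y => G y l) (Pool.PB.ptr F J ω)) - eval b (G (Pool.PB.ptr F J ω) l)| ≤
              2 / 2 ^ g l := by
      intro k hk B hB hP
      have hB0 : 0 < Pool.K2S.Pe F.p B := by
        by_contra h
        push Not at h
        have h1 : (2 : ℝ) ^ k * Pool.K2S.Pe F.p B ≤ 0 := mul_nonpos_of_nonneg_of_nonpos (by positivity) h
        linarith
      obtain ⟨n1, n2, n3, n4, n5⟩ := hnum k hk
      obtain ⟨B', k1, k2, k3, k4⟩ := hrec J F c a w e e' (v k) u g (gg k) B G H θ hB0 hc hwa hwJ n1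
        n2 hθ (hTm B hB (hP.trans (mul_le_mul_of_nonneg_right
          (pow_le_pow_right₀ (by norm_num) hk) hB0.le)) hB0) hN hu (hL.sub hB) n3 n4 n5
      refine ⟨B', k1, ?_, k3, fun ω hω => k4 ω (k1 ω hω)⟩
      have h2 : (2 : ℝ) ^ k * Pool.K2S.Pe F.p B ≤ 2 ^ k * (2 * Pool.K2S.Pe F.p B') :=
        mul_le_mul_of_nonneg_left (by linarith) (by positivity)
      calc Pool.K2S.Pe F.p A ≤ 2 ^ k * Pool.K2S.Pe F.p B := hP
        _ ≤ 2 ^ k * (2 * Pool.K2S.Pe F.p B') := h2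
        _ = 2 ^ (k + 1) * Pool.K2S.Pe F.p B' := by ring
    intro k
    induction k with
    | zero =>
      intro h0
      obtain ⟨B', k1, k2, k3, k4⟩ := step 0 h0 A (fun _ h => h) (by rw [pow_zero, one_mul])
      refine ⟨B', k1, k2, fun i hi => ?_, k4⟩
      rw [Nat.le_zero.1 hi]
      exact k3
    | succ k ih =>
      intro hk
      obtain ⟨B, j1, j2, j3, j4⟩ := ih (by omega)
      obtain ⟨B', k1, k2, k3, k4⟩ := step (k + 1) hk B j1 j2
      refine ⟨B', fun ω h => j1 ω (k1 ω h), k2, fun i hi => ?_, k4⟩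
      rcases Nat.lt_or_ge i (k + 1) with h1 | h1
      · exact (j3 i (by omega)).sub k1
      · have h2 : i = k + 1 := by omega
        rw [h2]
        exact k3
  exact key M le_rfl


end Pool.W.ISO
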