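import Pool.Agent.H2.GEN.Swp
import Pool.Agent.H3.W2.H2.GEN.Iso
import Pool.Agent.H3.W.Nlp
import Pool.Agent.H31.W1.H80.GEN.Chn

/-!
# Two chains at one point

`nbx_ext`: a point of the box of the first coordinates can be extended. `box_swap`: if the natural
boxes of one chain lie near another chain, also the boxes of the other chain lie near the first one.
`relv_swap`: no relation for a chain with near boxes. `lab_swap`: the two sides of a label on the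
boxes of a near chain.
-/

set_option autoImplicit false

namespace Pool.W.ISO

open Pool.ISO

open Finset Real MvPolynomial
open Pool.Agent.H49.Ent Pool.Agent.H32.Dense Pool.STK Pool.KA Pool.KSAT Pool.K2S Pool.PB Pool.S6C
open Pool.GEN Pool.CHT Pool.CHX

variable {m J : ℕ}


/-- **Three chains at one point**: no relation for `T`; the label of the target of `N` and no
relation for `Γ`, on the natural boxes of `Γ`. -/
theorem three_chains (D Dr r : ℕ) (hD : 1 ≤ D) : ∃ C : ℕ, ∀ {m J : ℕ} {F : Pool.KA.Fam m J}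
    {c : ℕ → Fin m} {a w e₁ e₂ e₃ h q : ℕ} {κT κ : ℝ} {gT gN gΓ : ℕ → ℕ} {B : F.Ω → Prop}
    {T N Γ : Pool.GEN.PtT F → ℕ → MvPolynomial (Option (Fin m)) ℝ}
    {TH NH ΓH : Pool.GEN.LnT F → ℕ → MvPolynomial (Option (Fin m)) ℝ}, Set.InjOn c (Set.Iio r) →
    Pool.CHT.RelvF F c r a w gT (max D Dr) h κT B T → 0 ≤ κ → κT * 4 ^ r ≤ κ → κT * (2 * 4 ^ r) ≤ 1 →
    Pool.W.GEN.ChOK F c r (fun _ => D) a w e₁ gT B T TH → Pool.W.GEN.ChOK F c (r + 1) (fun _ => D) a w e₂ gN B N NH →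
    Pool.W.GEN.ChOK F c (r + 1) (fun _ => D) a w e₃ gΓ B Γ ΓH → (∀ l < r, gT l ≤ gΓ l + q) →
    ∃ B' : F.Ω → Prop, Pool.K2S.Sub B' B ∧ Pool.K2S.Pe F.p B ≤ 4 ^ r * Pool.K2S.Pe F.p B' ∧
      (∀ ω, B' ω → ∀ b, Pool.GEN.NBx c (Γ (Pool.PB.ptr F J ω)) gΓ a (F.t ω) r b → ∀ l < r,
        |b (some (c l)) - eval b (T (Pool.PB.ptr F J ω) l)| ≤ 2 ^ (C * (h + q + 1)) / 2 ^ gT l ∧
        |b (some (c l)) - eval b (N (Pool.PB.ptr F J ω) l)| ≤ 2 ^ (C * (h + q + 1)) / 2 ^ gN l) ∧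
      (∀ ω, B' ω → ∀ b, Pool.GEN.NBx c (Γ (Pool.PB.ptr F J ω)) gΓ a (F.t ω) r b →
        |eval b (N (Pool.PB.ptr F J ω) r) - eval b (NH (Pool.KSAT.slam F w ω) r)| ≤
          2 ^ (C * (h + q + 1)) / 2 ^ gN r) ∧
      Pool.CHT.RelvF F c r a w gΓ Dr (C * (h + q + 1)) κ B' Γ := by
  obtain ⟨C₁, hmv⟩ := Pool.W.ISO.move_all D (r + 1) hD
  obtain ⟨C₂, hbs⟩ := Pool.ISO.box_swap D (r + 1)
  obtain ⟨C₀, hls⟩ := Pool.ISO.lab_swap D (r + 1)
  obtain ⟨C₃, hC₃⟩ : ∃ C₃, C₃ = C₀ + 1 := ⟨_, rfl⟩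
  obtain ⟨C₄, hrs⟩ := Pool.ISO.relv_swap (max D Dr) (r + 1)
  obtain ⟨C, hC⟩ : ∃ C, C = (C₃ + C₄ + 1) * (C₂ + 2) * (C₁ + 2) * 4 := ⟨_, rfl⟩
  refine ⟨C, ?_⟩
  intro m J F c a w e₁ e₂ e₃ h q κT κ gT gN gΓ B T N Γ TH NH ΓH hc hR hκ hκ1 hκ2 hT hN hΓ hq
  have hp := Pool.K2S.Pe_nonneg F.isLaw
  have h4 : (0 : ℝ) < 4 ^ r := by positivity
  have h2 : (0 : ℝ) < 2 ^ r := by positivity
  have e4 : (4 : ℝ) ^ r = 2 ^ r * 2 ^ r := by
    rw [← mul_pow]
    norm_num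
  have hRD : Pool.CHT.RelvF F c r a w gT D h κT B T := hR.mono (le_max_left _ _) le_rfl
  -- the boxes of `T` near `Γ`
  obtain ⟨B₁, k1, k2, k3⟩ := hmv (κ' := 1) (Nat.lt_succ_self r) hc hRD (fun _ h => h)
    (by rw [one_mul]) (by
      rcases le_or_gt κT 0 with h0 | h0
      · have : κT * 2 ^ (r + 1) ≤ 0 := mul_nonpos_of_nonpos_of_nonneg h0 (by positivity)
        linarith
      · have h3 : (2 : ℝ) ^ (r + 1) ≤ 2 * 4 ^ r := by
          rw [e4, pow_succ]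
          have : (1 : ℝ) ≤ 2 ^ r := one_le_pow₀ (by norm_num)
          nlinarith
        exact (mul_le_mul_of_nonneg_left h3 h0.le).trans hκ2)
    (hΓ.mono (Nat.le_succ r) (fun _ => le_rfl) le_rfl le_rfl)
  have hP1 : Pool.K2S.Pe F.p B ≤ 2 ^ r * Pool.K2S.Pe F.p B₁ := by
    rw [div_le_iff₀ h2] at k2
    linarith
  -- the boxes of `T` near `N`
  obtain ⟨B₂, l1, l2, l3⟩ := hmv (κ' := 1 / 2 ^ r) (Nat.lt_succ_self r) hc hRD k1
    (by rw [one_div, inv_mul_le_iff₀ h2]; exact hP1) (by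
      rw [le_div_iff₀ h2]
      rcases le_or_gt κT 0 with h0 | h0
      · have : κT * 2 ^ (r + 1) * 2 ^ r ≤ 0 :=
          mul_nonpos_of_nonpos_of_nonneg (mul_nonpos_of_nonpos_of_nonneg h0 (by positivity))
            h2.le
        linarith
      · have h3 : κT * 2 ^ (r + 1) * 2 ^ r = κT * (2 * 4 ^ r) := by
          rw [e4, pow_succ]
          ring
        rw [h3]
        exact hκ2)
    ((hN.mono (Nat.le_succ r) (fun _ => le_rfl) le_rfl le_rfl).sub k1)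
  have hP2 : Pool.K2S.Pe F.p B ≤ 4 ^ r * Pool.K2S.Pe F.p B₂ := by
    rw [div_le_iff₀ h2] at l2
    calc Pool.K2S.Pe F.p B ≤ 2 ^ r * Pool.K2S.Pe F.p B₁ := hP1
      _ ≤ 2 ^ r * (Pool.K2S.Pe F.p B₂ * 2 ^ r) := mul_le_mul_of_nonneg_left l2 h2.le
      _ = 4 ^ r * Pool.K2S.Pe F.p B₂ := by rw [e4]; ring
  -- the boxes of `Γ` near `T`
  have hbT : ∀ ω, B₂ ω → ∀ b, Pool.GEN.NBx c (Γ (Pool.PB.ptr F J ω)) gΓ a (F.t ω) r b → ∀ l < r,
      |b (some (c l)) - eval b (T (Pool.PB.ptr F J ω) l)| ≤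
        2 ^ (C₂ * (C₁ * (h + 1) + q + 1)) / 2 ^ gT l := by
    intro ω hω b hb l hl
    exact hbs (Nat.lt_succ_self r) hc (hT.degG _) (hT.depG _) (hΓ.degG _) (hΓ.depG _) hq
      (fun b hb j hj => k3 ω (l1 ω hω) b hb j hj) b hb l hl
  obtain ⟨p, hp'⟩ : ∃ p, p = C₂ * (C₁ * (h + 1) + q + 1) + C₁ * (h + 1) := ⟨_, rfl⟩
  have hpC : (C₃ + C₄ + 1) * (2 * (p + 1)) + h ≤ C * (h + q + 1) := by
    have h1 : p + 1 ≤ (C₂ + 2) * (C₁ + 2) * (h + q + 1) := by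
      rw [hp']
      nlinarith [Nat.zero_le (C₁ * q), Nat.zero_le (C₂ * q), Nat.zero_le (C₂ * C₁ * q),
        Nat.zero_le (C₂ * h), Nat.zero_le (C₁ * h), Nat.zero_le (C₂ * C₁), Nat.zero_le C₁,
        Nat.zero_le C₂, Nat.zero_le (C₂ * C₁ * h)]
    have h3 : h ≤ (C₃ + C₄ + 1) * (C₂ + 2) * (C₁ + 2) * (h + q + 1) := by
      have : 1 ≤ (C₃ + C₄ + 1) * (C₂ + 2) * (C₁ + 2) :=
        Nat.one_le_iff_ne_zero.2 (by positivity)
      calc h ≤ 1 * (h + q + 1) := by omega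
        _ ≤ _ := Nat.mul_le_mul_right _ this
    calc (C₃ + C₄ + 1) * (2 * (p + 1)) + h
        ≤ (C₃ + C₄ + 1) * (2 * ((C₂ + 2) * (C₁ + 2) * (h + q + 1))) +
          (C₃ + C₄ + 1) * (C₂ + 2) * (C₁ + 2) * (h + q + 1) :=
          Nat.add_le_add (Nat.mul_le_mul_left _ (Nat.mul_le_mul_left _ h1)) h3
      _ ≤ C * (h + q + 1) := by
          rw [hC]
          have : (C₃ + C₄ + 1) * (2 * ((C₂ + 2) * (C₁ + 2) * (h + q + 1))) +
            (C₃ + C₄ + 1) * (C₂ + 2) * (C₁ + 2) * (h + q + 1) =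
            3 * ((C₃ + C₄ + 1) * (C₂ + 2) * (C₁ + 2) * (h + q + 1)) := by ring
          rw [this]
          have h5 : (C₃ + C₄ + 1) * (C₂ + 2) * (C₁ + 2) * 4 * (h + q + 1) =
            4 * ((C₃ + C₄ + 1) * (C₂ + 2) * (C₁ + 2) * (h + q + 1)) := by ring
          rw [h5]
          exact Nat.mul_le_mul_right _ (by norm_num)
  have q1 : C₁ * (h + 1) ≤ p := by rw [hp']; omega
  have q2 : C₂ * (C₁ * (h + 1) + q + 1) ≤ p := by rw [hp']; omega
  have q3 : C₃ * (2 * (p + 1)) ≤ C * (h + q + 1) :=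
    le_trans (by nlinarith [Nat.zero_le (C₄ * (p + 1))]) hpC
  have q4 : h + C₄ * (p + 1) ≤ C * (h + q + 1) := le_trans (by
    nlinarith [Nat.zero_le (C₃ * (p + 1)), Nat.zero_le (C₄ * (p + 1))]) hpC
  have q5 : p ≤ C * (h + q + 1) :=
    le_trans (by nlinarith [Nat.zero_le (C₄ * (p + 1)), Nat.zero_le (C₃ * (p + 1))]) hpC
  have hdiv : ∀ {x y n : ℕ}, x ≤ y → (2 : ℝ) ^ x / 2 ^ n ≤ 2 ^ y / 2 ^ n := fun h =>
    div_le_div_of_nonneg_right (pow_le_pow_right₀ (by norm_num) h) (by positivity)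
  have hbT' : ∀ ω, B₂ ω → ∀ b, Pool.GEN.NBx c (Γ (Pool.PB.ptr F J ω)) gΓ a (F.t ω) r b → ∀ l < r,
      |b (some (c l)) - eval b (T (Pool.PB.ptr F J ω) l)| ≤ 2 ^ p / 2 ^ gT l :=
    fun ω hω b hb l hl => (hbT ω hω b hb l hl).trans (hdiv q2)
  -- labels on the boxes of `Γ`
  have hQ : ∀ (Q : MvPolynomial (Option (Fin m)) ℝ) (l n : ℕ), l ≤ r → Pool.GEN.DepC c r Q →
      Q.totalDegree ≤ D → ∀ ω, B₂ ω →
      (∀ b, Pool.GEN.NBx c (T (Pool.PB.ptr F J ω)) gT a (F.t ω) r b → |eval b Q| ≤ 2 ^ (C₃ * (p + 1)) / 2 ^ n) →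
      ∀ b, Pool.GEN.NBx c (Γ (Pool.PB.ptr F J ω)) gΓ a (F.t ω) r b →
        |eval b Q| ≤ 2 ^ (C * (h + q + 1)) / 2 ^ n := by
    intro Q l n hl hQ1 hQ2 ω hω hQ3 b hb
    have h1 := hls (Nat.lt_succ_self r) hc (hT.degG _) (hT.depG _) hQ1 hQ2 (by positivity)
      (hbT' ω hω) hQ3 b hb
    refine h1.trans ?_
    rw [← mul_div_assoc, ← pow_add]
    refine hdiv (le_trans ?_ q3)
    have h5 : C₀ * (p + 1) ≤ C₃ * (p + 1) := Nat.mul_le_mul_right _ (by omega)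
    have h6 : C₃ * (2 * (p + 1)) = C₃ * (p + 1) + C₃ * (p + 1) := by ring
    omega
  refine ⟨B₂, fun ω hω => k1 ω (l1 ω hω), hP2, fun ω hω b hb l hl =>
    ⟨(hbT' ω hω b hb l hl).trans (hdiv q5), ?_⟩, fun ω hω b hb => ?_, ?_⟩
  · have h1 := hQ (X (some (c l)) - N (Pool.PB.ptr F J ω) l) l (gN l) hl.le
      (fun y y' hn hy => by
        rw [map_sub, map_sub, eval_X, eval_X, hy l hl,
          (hN.depG (Pool.PB.ptr F J ω) l).mono hl.le y y' hn hy])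
      ((totalDegree_sub _ _).trans (max_le (by rw [totalDegree_X]; exact hD) (hN.degG _ l)))
      ω hω (fun b hb => by
        rw [map_sub, eval_X]
        refine (l3 ω hω b hb l hl).trans (hdiv (q1.trans ?_))
        calc p ≤ 1 * (p + 1) := by omega
          _ ≤ C₃ * (p + 1) := Nat.mul_le_mul_right _ (by omega)) b hb
    rw [map_sub, eval_X] at h1
    exact h1
  · have hN' := hN.sub fun ω (hω : B₂ ω) => k1 ω (l1 ω hω)
    have h1 := hQ (N (Pool.PB.ptr F J ω) r - NH (Pool.KSAT.slam F w ω) r) r (gN r) le_rfl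
      (fun y y' hn hy => by
        rw [map_sub, map_sub, hN.depG (Pool.PB.ptr F J ω) r y y' hn hy, hN.depH (Pool.KSAT.slam F w ω) r y y' hn hy])
      ((totalDegree_sub _ _).trans (max_le (hN.degG _ r) (hN.degH _ r)))
      ω hω (fun b hb => by
        have h2 := hls (p := C₁ * (h + 1)) (Nat.lt_succ_self r) hc (hN.degG (Pool.PB.ptr F J ω))
          (hN.depG (Pool.PB.ptr F J ω))
          (Q := N (Pool.PB.ptr F J ω) r - NH (Pool.KSAT.slam F w ω) r) (M := 1 / 2 ^ gN r)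
          (fun y y' hn hy => by
            rw [map_sub, map_sub, hN.depG (Pool.PB.ptr F J ω) r y y' hn hy,
              hN.depH (Pool.KSAT.slam F w ω) r y y' hn hy])
          ((totalDegree_sub _ _).trans (max_le (hN.degG _ r) (hN.degH _ r))) (by positivity)
          (fun b hb j hj => l3 ω hω b hb j hj) (fun b hb => by
            rw [map_sub]
            exact hN'.agr ω hω r (Nat.lt_succ_self r) b hb) b hb
        refine h2.trans ?_
        rw [← mul_div_assoc, mul_one]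
        refine hdiv ?_
        calc C₀ * (C₁ * (h + 1) + 1) ≤ C₃ * (p + 1) :=
              Nat.mul_le_mul (by omega) (by omega)
          _ ≤ _ := le_rfl) b hb
    rw [map_sub] at h1
    exact h1
  · have h1 := hrs (κ₁ := 1 / 4 ^ r) (κ₂ := κ) (p := p) (g' := gΓ) (G' := Γ)
      (Nat.lt_succ_self r) hc hR (fun ω (hω : B₂ ω) => k1 ω (l1 ω hω))
      (by rw [one_div, inv_mul_le_iff₀ h4]; exact hP2) hκ
      (by rw [mul_one_div, le_div_iff₀ h4]; exact hκ1)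
      (fun y l => (hT.degG y l).trans (le_max_left _ _)) hT.depG
      (fun y l => (hΓ.degG y l).trans (le_max_left _ _)) hΓ.depG
      (fun ω hω b hb j hj => (k3 ω (l1 ω hω) b hb j hj).trans (hdiv q1))
      (fun ω hω b hb j hj => hbT' ω hω b hb j hj)
    exact (Pool.ISO.relvF_exp h1 q4).mono (le_max_right _ _) le_rfl

end Pool.W.ISO
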