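import Pool.Agent.H2.GEN.Mix
import Pool.Agent.H3.W2.H2.GEN.Iso
import Pool.Agent.H3.W.Nlp
import Pool.Agent.H31.W1.H80.GEN.Chn

/-!
# Mixed chains

`mix_box`: two chains `T`, `Γ` at one point such that the natural boxes of `T` lie near `Γ`; the
mixed chain takes the labels of `Γ` for the coordinates in `R`, with larger sides. Its natural boxes
lie near both chains. `mix_ok`: the mixed chain is a chain. `mix_chains`: the mixed chain with no
relation and with the label of the target of a third chain, on a large event.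
-/

set_option autoImplicit false

namespace Pool.W.ISO

open Pool.ISO

open Finset Real MvPolynomial
open Pool.Agent.H49.Ent Pool.Agent.H32.Dense Pool.STK Pool.KA Pool.KSAT Pool.K2S Pool.PB Pool.S6C
open Pool.GEN Pool.CHT Pool.CHX

variable {m J : ℕ}


theorem nlp_cmp {g g' : ℕ → ℕ} {l i k : ℕ} (hg : ∀ j, 0 ≤ j → j ≤ i → g j ≤ g' j + k)
    (hi : g' i ≤ g i) : Pool.W.GEN.nlp g l i ≤ Pool.W.GEN.nlp g' l i + k := by
  unfold Pool.W.GEN.nlp
  have h1 : (Finset.range (i + 1)).sup g ≤ (Finset.range (i + 1)).sup g' + k := by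
    refine Finset.sup_le fun j hj => ?_
    have h3 := Nat.lt_succ_iff.1 (Finset.mem_range.1 hj)
    have h4 : g' j ≤ (Finset.range (i + 1)).sup g' := Finset.le_sup hj
    have h5 := hg j (Nat.zero_le _) h3
    omega
  omega

/-- **The mixed chain is a chain.** -/
theorem mix_ok (D r : ℕ) : ∃ C : ℕ, 1 ≤ C ∧ ∀ {m J : ℕ} {F : Pool.KA.Fam m J} {c : ℕ → Fin m}
    {R : ℕ → Prop} {p q a w e e' : ℕ} {T Γ : Pool.GEN.PtT F → ℕ → MvPolynomial (Option (Fin m)) ℝ}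
    {TH ΓH : Pool.GEN.LnT F → ℕ → MvPolynomial (Option (Fin m)) ℝ} {gT gΓ s : ℕ → ℕ} {B : F.Ω → Prop},
    Set.InjOn c (Set.Iio r) → Pool.W.GEN.ChOK F c r (fun _ => D) a w e gT B T TH →
    Pool.W.GEN.ChOK F c r (fun _ => D) a w e gΓ B Γ ΓH →
    (∀ l < r, R l → gT l ≤ gΓ l + q) → (∀ l < r, gΓ l ≤ gT l + q) →
    Pool.ISO.SHie C r (C * (p + q + 1)) s → (∀ l < r, s l ≤ gT l ∧ s l ≤ gΓ l) →
    (∀ ω, B ω → ∀ b, Pool.GEN.NBx c (T (Pool.PB.ptr F J ω)) gT a (F.t ω) r b → ∀ j < r,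
      |b (some (c j)) - eval b (Γ (Pool.PB.ptr F J ω) j)| ≤ 2 ^ p / 2 ^ gΓ j) →
    (∀ l < r, e + 2 * s l + q ≤ e') →
    Pool.W.GEN.ChOK F c r (fun _ => D) a w e' (fun l => Pool.ISO.mixl R gΓ gT l - s l) B
      (fun y => Pool.ISO.mixl R (Γ y) (T y)) (fun x => Pool.ISO.mixl R (ΓH x) (TH x)) ∧
    ∀ ω, B ω → ∀ i ≤ r, ∀ b, Pool.GEN.NBx c (Pool.ISO.mixl R (Γ (Pool.PB.ptr F J ω)) (T (Pool.PB.ptr F J ω)))
      (fun l => Pool.ISO.mixl R gΓ gT l - s l) a (F.t ω) i b → ∀ j < i,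
      |b (some (c j)) - eval b (T (Pool.PB.ptr F J ω) j)| ≤ 2 ^ (s j + q + 1) / 2 ^ gT j ∧
      |b (some (c j)) - eval b (Γ (Pool.PB.ptr F J ω) j)| ≤ 2 ^ (s j + q + 1) / 2 ^ gΓ j := by
  obtain ⟨C₁, hC₁, hbox⟩ := Pool.ISO.mix_box D r
  obtain ⟨c₀, D₁, hD₁, hdil⟩ := Pool.CHT.nbx_dil (r + 1) (fun _ => D)
  obtain ⟨C, hC⟩ : ∃ C, C = C₁ + c₀ + 3 * D₁ + 2 := ⟨_, rfl⟩
  refine ⟨C, by omega, ?_⟩
  intro m J F c R p q a w e e' T Γ TH ΓH gT gΓ s B hc hT hΓ hR hΓT hs hsg hnear he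
  have hC1 : 1 ≤ C := by omega
  have hs' : Pool.ISO.SHie C₁ r (C₁ * (p + q + 1)) s :=
    ⟨(Nat.mul_le_mul_right _ (by omega)).trans hs.zero,
      fun i hi => (Nat.mul_le_mul_right _ (by omega)).trans (hs.suc i hi)⟩
  have hnr : ∀ ω, B ω → ∀ i ≤ r, ∀ b, Pool.GEN.NBx c (Pool.ISO.mixl R (Γ (Pool.PB.ptr F J ω)) (T (Pool.PB.ptr F J ω)))
      (fun l => Pool.ISO.mixl R gΓ gT l - s l) a (F.t ω) i b → ∀ j < i,
      |b (some (c j)) - eval b (T (Pool.PB.ptr F J ω) j)| ≤ 2 ^ (s j + q + 1) / 2 ^ gT j ∧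
      |b (some (c j)) - eval b (Γ (Pool.PB.ptr F J ω) j)| ≤ 2 ^ (s j + q + 1) / 2 ^ gΓ j :=
    fun ω hω => hbox hc (hT.degG _) (hT.depG _) (hΓ.degG _) (hΓ.depG _) hR hΓT hs' hsg
      (hnear ω hω)
  refine ⟨?_, hnr⟩
  -- the dilation
  have hdl : ∀ i < r, ∃ x : ℕ, c₀ + x * D₁ ≤ s i ∧ ∀ l < i, s l + q + 1 ≤ x := by
    intro i hi
    refine ⟨if i = 0 then 0 else s (i - 1) + q + 1, ?_, fun l hl => ?_⟩
    · split_ifs with h2
      · subst h2
        have h3 := hs.zero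
        have h4 : c₀ + 0 * D₁ ≤ C * (p + q + 1) := by
          rw [hC]
          nlinarith [Nat.zero_le (C₁ * (p + q + 1)), Nat.zero_le (D₁ * (p + q + 1)),
            Nat.zero_le (c₀ * (p + q)), Nat.zero_le p, Nat.zero_le q]
        omega
      · obtain ⟨j', rfl⟩ : ∃ j', i = j' + 1 := ⟨i - 1, by omega⟩
        rw [Nat.add_sub_cancel]
        have h3 := hs.suc j' hi
        have h4 := hs.le hC1 (show j' < r by omega)
        have h5 : p + q + 1 ≤ s j' := by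
          have : 1 * (p + q + 1) ≤ C * (p + q + 1) := Nat.mul_le_mul_right _ hC1
          omega
        have h6 : c₀ + (s j' + q + 1) * D₁ ≤ C * (s j' + 1) := by
          have h7 : (s j' + q + 1) * D₁ ≤ (2 * (s j' + 1)) * D₁ :=
            Nat.mul_le_mul_right _ (by omega)
          rw [hC]
          nlinarith [Nat.zero_le (c₀ * s j'), Nat.zero_le (D₁ * s j'), Nat.zero_le (C₁ * s j')]
        omega
    · rw [if_neg (by omega)]
      have := hs.mono hC1 (show l ≤ i - 1 by omega) (by omega)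
      omega
  have hci : ∀ i < r, Set.InjOn c (Set.Iio i) := fun i hi => hc.mono fun x hx => by
    rw [Set.mem_Iio] at hx ⊢
    omega
  -- one label on the boxes of the mixed chain
  have hlab : ∀ ω, B ω → ∀ i < r, ∀ (G : ℕ → MvPolynomial (Option (Fin m)) ℝ) (g : ℕ → ℕ)
      (Q : MvPolynomial (Option (Fin m)) ℝ) (M : ℝ), (∀ l, (G l).totalDegree ≤ D) →
      (∀ l, Pool.GEN.DepC c l (G l)) → Pool.GEN.DepC c i Q → Q.totalDegree ≤ D → 0 ≤ M →
      (∀ b, Pool.GEN.NBx c G g a (F.t ω) i b → |eval b Q| ≤ M) →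
      ∀ b, Pool.GEN.NBx c (Pool.ISO.mixl R (Γ (Pool.PB.ptr F J ω)) (T (Pool.PB.ptr F J ω))) (fun l => Pool.ISO.mixl R gΓ gT l - s l) a
        (F.t ω) i b → (∀ j < i, |b (some (c j)) - eval b (G j)| ≤ 2 ^ (s j + q + 1) / 2 ^ g j) →
      |eval b Q| ≤ 2 ^ s i * M := by
    intro ω hω i hi G g Q M h1 h2 h3 h4 h5 h6 b hb h7
    obtain ⟨x, hx1, hx2⟩ := hdl i hi
    have h8 := hdil (c := c) (i := i) (G := G) (Q := Q) (g := g) (a := a) (t := F.t ω)
      (M := M) x (by omega) (hci i hi) h1 h2 h3 h4 h5 h6 b hb.1 fun l hl =>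
        (h7 l hl).trans (div_le_div_of_nonneg_right
          (pow_le_pow_right₀ (by norm_num) (hx2 l hl)) (by positivity))
    exact h8.trans (mul_le_mul_of_nonneg_right (pow_le_pow_right₀ (by norm_num) hx1) h5)
  have hcmpΓ : ∀ i < r, ∀ j ≤ i, gΓ j ≤ (Pool.ISO.mixl R gΓ gT j - s j) + (s i + q) := by
    intro i hi j hj
    have h1 := hs.mono hC1 hj hi
    have h2 := hΓT j (by omega)
    have h3 := hsg j (by omega)
    by_cases hRj : R j
    · rw [Pool.ISO.mixl_pos hRj]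
      omega
    · rw [Pool.ISO.mixl_neg hRj]
      omega
  have hcmpT : ∀ i < r, ∀ j ≤ i, gT j ≤ (Pool.ISO.mixl R gΓ gT j - s j) + (s i + q) := by
    intro i hi j hj
    have h1 := hs.mono hC1 hj hi
    have h2 := hR j (by omega)
    have h3 := hsg j (by omega)
    by_cases hRj : R j
    · rw [Pool.ISO.mixl_pos hRj]
      have := h2 hRj
      omega
    · rw [Pool.ISO.mixl_neg hRj]
      omega
  refine ⟨fun y i => ?_, fun y i => ?_, fun y i => ?_, fun y i => ?_, fun ω hω i hi => ?_,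
    fun ω hω i hi b hb => ?_, fun ω hω i hi b hb l hl => ?_⟩
  · show (Pool.ISO.mixl R (Γ y) (T y) i).totalDegree ≤ D
    by_cases h : R i
    · rw [Pool.ISO.mixl_pos h]; exact hΓ.degG y i
    · rw [Pool.ISO.mixl_neg h]; exact hT.degG y i
  · show (Pool.ISO.mixl R (ΓH y) (TH y) i).totalDegree ≤ D
    by_cases h : R i
    · rw [Pool.ISO.mixl_pos h]; exact hΓ.degH y i
    · rw [Pool.ISO.mixl_neg h]; exact hT.degH y i
  · show Pool.GEN.DepC c i (Pool.ISO.mixl R (Γ y) (T y) i)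
    by_cases h : R i
    · rw [Pool.ISO.mixl_pos h]; exact hΓ.depG y i
    · rw [Pool.ISO.mixl_neg h]; exact hT.depG y i
  · show Pool.GEN.DepC c i (Pool.ISO.mixl R (ΓH y) (TH y) i)
    by_cases h : R i
    · rw [Pool.ISO.mixl_pos h]; exact hΓ.depH y i
    · rw [Pool.ISO.mixl_neg h]; exact hT.depH y i
  · show |F.x ω (c i) - eval (Pool.GEN.bt F ω) (Pool.ISO.mixl R (Γ (Pool.PB.ptr F J ω)) (T (Pool.PB.ptr F J ω)) i)| ≤
      1 / 2 ^ (Pool.ISO.mixl R gΓ gT i - s i)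
    by_cases h : R i
    · rw [Pool.ISO.mixl_pos h, Pool.ISO.mixl_pos h]
      exact (hΓ.pos ω hω i hi).trans (one_div_le_one_div_of_le (by positivity)
        (pow_le_pow_right₀ (by norm_num) (Nat.sub_le _ _)))
    · rw [Pool.ISO.mixl_neg h, Pool.ISO.mixl_neg h]
      exact (hT.pos ω hω i hi).trans (one_div_le_one_div_of_le (by positivity)
        (pow_le_pow_right₀ (by norm_num) (Nat.sub_le _ _)))
  · have hn := hnr ω hω i hi.le b hb
    obtain ⟨hs1, hs2⟩ := hsg i hi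
    show |eval b (Pool.ISO.mixl R (Γ (Pool.PB.ptr F J ω)) (T (Pool.PB.ptr F J ω)) i) -
      eval b (Pool.ISO.mixl R (ΓH (Pool.KSAT.slam F w ω)) (TH (Pool.KSAT.slam F w ω)) i)| ≤ 1 / 2 ^ (Pool.ISO.mixl R gΓ gT i - s i)
    by_cases h : R i
    · rw [Pool.ISO.mixl_pos h, Pool.ISO.mixl_pos h, Pool.ISO.mixl_pos h, Pool.ISO.inv_sub_pow hs2]
      have h1 := hlab ω hω i hi (Γ (Pool.PB.ptr F J ω)) gΓ
        (Γ (Pool.PB.ptr F J ω) i - ΓH (Pool.KSAT.slam F w ω) i) (1 / 2 ^ gΓ i) (hΓ.degG _) (hΓ.depG _)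
        (fun y y' hn hy => by
          rw [map_sub, map_sub, hΓ.depG _ i y y' hn hy, hΓ.depH _ i y y' hn hy])
        ((totalDegree_sub _ _).trans (max_le (hΓ.degG _ i) (hΓ.degH _ i))) (by positivity)
        (fun b hb => by rw [map_sub]; exact hΓ.agr ω hω i hi b hb) b hb fun j hj => (hn j hj).2
      rw [map_sub, mul_one_div] at h1
      exact h1
    · rw [Pool.ISO.mixl_neg h, Pool.ISO.mixl_neg h, Pool.ISO.mixl_neg h, Pool.ISO.inv_sub_pow hs1]
      have h1 := hlab ω hω i hi (T (Pool.PB.ptr F J ω)) gT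
        (T (Pool.PB.ptr F J ω) i - TH (Pool.KSAT.slam F w ω) i) (1 / 2 ^ gT i) (hT.degG _) (hT.depG _)
        (fun y y' hn hy => by
          rw [map_sub, map_sub, hT.depG _ i y y' hn hy, hT.depH _ i y y' hn hy])
        ((totalDegree_sub _ _).trans (max_le (hT.degG _ i) (hT.degH _ i))) (by positivity)
        (fun b hb => by rw [map_sub]; exact hT.agr ω hω i hi b hb) b hb fun j hj => (hn j hj).1
      rw [map_sub, mul_one_div] at h1
      exact h1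
  · have hn := hnr ω hω i hi.le b hb
    show |eval b (pderiv (some (c l)) (Pool.ISO.mixl R (Γ (Pool.PB.ptr F J ω)) (T (Pool.PB.ptr F J ω)) i))| ≤
      2 ^ (e' + Pool.W.GEN.nlp (fun l => Pool.ISO.mixl R gΓ gT l - s l) l i)
    have hei := he i hi
    by_cases h : R i
    · rw [Pool.ISO.mixl_pos h]
      have h1 := hlab ω hω i hi (Γ (Pool.PB.ptr F J ω)) gΓ (pderiv (some (c l)) (Γ (Pool.PB.ptr F J ω) i))
        (2 ^ (e + Pool.W.GEN.nlp gΓ l i)) (hΓ.degG _) (hΓ.depG _) (Pool.GEN.DepC.pderiv (hΓ.depG _ i) l)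
        (Pool.GEN.totalDegree_pdσ (hΓ.degG _ i) _) (by positivity)
        (fun b hb => hΓ.lip ω hω i hi b hb l hl) b hb fun j hj => (hn j hj).2
      refine h1.trans ?_
      rw [← pow_add]
      refine pow_le_pow_right₀ (by norm_num) ?_
      have h2 := Pool.W.ISO.nlp_cmp (g := gΓ) (g' := fun l => Pool.ISO.mixl R gΓ gT l - s l) (l := l) (i := i)
        (k := s i + q) (fun j _ hj => hcmpΓ i hi j hj) (by
          show Pool.ISO.mixl R gΓ gT i - s i ≤ gΓ i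
          rw [Pool.ISO.mixl_pos h]
          omega)
      omega
    · rw [Pool.ISO.mixl_neg h]
      have h1 := hlab ω hω i hi (T (Pool.PB.ptr F J ω)) gT (pderiv (some (c l)) (T (Pool.PB.ptr F J ω) i))
        (2 ^ (e + Pool.W.GEN.nlp gT l i)) (hT.degG _) (hT.depG _) (Pool.GEN.DepC.pderiv (hT.depG _ i) l)
        (Pool.GEN.totalDegree_pdσ (hT.degG _ i) _) (by positivity)
        (fun b hb => hT.lip ω hω i hi b hb l hl) b hb fun j hj => (hn j hj).1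
      refine h1.trans ?_
      rw [← pow_add]
      refine pow_le_pow_right₀ (by norm_num) ?_
      have h2 := Pool.W.ISO.nlp_cmp (g := gT) (g' := fun l => Pool.ISO.mixl R gΓ gT l - s l) (l := l) (i := i)
        (k := s i + q) (fun j _ hj => hcmpT i hi j hj) (by
          show Pool.ISO.mixl R gΓ gT i - s i ≤ gT i
          rw [Pool.ISO.mixl_neg h]
          omega)
      omega

/-- **Three chains at one point, mixed**: the mixed chain of `T` and `Γ`, with the label of the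
target of `N` and with no relation, on its natural boxes. -/
theorem mix_chains (D Dr r : ℕ) (hD : 1 ≤ D) : ∃ C : ℕ, 1 ≤ C ∧ ∀ {m J : ℕ} {F : Pool.KA.Fam m J}
    {c : ℕ → Fin m} {R : ℕ → Prop} {a w e h q : ℕ} {κT κ : ℝ} {gT gN gΓ s : ℕ → ℕ}
    {B : F.Ω → Prop} {T N Γ : Pool.GEN.PtT F → ℕ → MvPolynomial (Option (Fin m)) ℝ}
    {TH NH ΓH : Pool.GEN.LnT F → ℕ → MvPolynomial (Option (Fin m)) ℝ}, Set.InjOn c (Set.Iio (r + 1)) →
    Pool.CHT.RelvF F c r a w gT (max D Dr) h κT B T → 0 ≤ κ → κT * 4 ^ r ≤ κ → κT * (2 * 4 ^ r) ≤ 1 →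
    Pool.W.GEN.ChOK F c r (fun _ => D) a w e gT B T TH → Pool.W.GEN.ChOK F c (r + 1) (fun _ => D) a w e gN B N NH →
    Pool.W.GEN.ChOK F c (r + 1) (fun _ => D) a w e gΓ B Γ ΓH → (∀ l < r, R l → gT l ≤ gΓ l + q) →
    (∀ l < r, gΓ l ≤ gT l + q) → Pool.ISO.SHie C (r + 1) (C * (h + q + 1)) s → (∀ l < r, s l ≤ gT l) →
    (∀ l ≤ r, s l ≤ gΓ l) →
    ∃ B' : F.Ω → Prop, Pool.K2S.Sub B' B ∧ Pool.K2S.Pe F.p B ≤ 4 ^ r * Pool.K2S.Pe F.p B' ∧
      Pool.W.GEN.ChOK F c r (fun _ => D) a w (e + 2 * s r + q) (fun l => Pool.ISO.mixl R gΓ gT l - s l) B'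
        (fun y => Pool.ISO.mixl R (Γ y) (T y)) (fun x => Pool.ISO.mixl R (ΓH x) (TH x)) ∧
      Pool.W.GEN.ChOK F c (r + 1) (fun _ => D) a w (e + 2 * s r + q) (fun l => gΓ l - s l) B' Γ ΓH ∧
      (∀ ω, B' ω → ∀ b, Pool.GEN.NBx c (Pool.ISO.mixl R (Γ (Pool.PB.ptr F J ω)) (T (Pool.PB.ptr F J ω)))
        (fun l => Pool.ISO.mixl R gΓ gT l - s l) a (F.t ω) r b →
        |eval b (N (Pool.PB.ptr F J ω) r) - eval b (NH (Pool.KSAT.slam F w ω) r)| ≤ 2 ^ s r / 2 ^ gN r) ∧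
      Pool.CHT.RelvF F c r a w (fun l => Pool.ISO.mixl R gΓ gT l - s l) Dr (s r) κ B'
        (fun y => Pool.ISO.mixl R (Γ y) (T y)) := by
  obtain ⟨C₁, hmv⟩ := Pool.W.ISO.move_all D (r + 1) hD
  obtain ⟨C₂, hC₂, hmx⟩ := Pool.W.ISO.mix_ok D r
  obtain ⟨C₃, hC₃, hgr⟩ := Pool.W.ISO.mix_ok D (r + 1)
  obtain ⟨C₀, hls⟩ := Pool.ISO.lab_swap D (r + 1)
  obtain ⟨C₄, hrs⟩ := Pool.ISO.relv_swap (max D Dr) (r + 1)
  obtain ⟨C, hC⟩ : ∃ C, C = (C₀ + C₂ + C₃ + C₄ + 1) * (2 * C₁ + 8) := ⟨_, rfl⟩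
  have hC1 : 1 ≤ C := by
    rw [hC]
    exact Nat.one_le_iff_ne_zero.2 (by positivity)
  refine ⟨C, hC1, ?_⟩
  intro m J F c R a w e h q κT κ gT gN gΓ s B T N Γ TH NH ΓH hc' hR hκ hκ1 hκ2 hT hN hΓ hRq hΓT hs
    hsT hsΓ
  have hc : Set.InjOn c (Set.Iio r) := hc'.mono fun x hx => by
    rw [Set.mem_Iio] at hx ⊢
    omega
  have hp := Pool.K2S.Pe_nonneg F.isLaw
  have h4 : (0 : ℝ) < 4 ^ r := by positivity
  have h2 : (0 : ℝ) < 2 ^ r := by positivity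
  have e4 : (4 : ℝ) ^ r = 2 ^ r * 2 ^ r := by
    rw [← mul_pow]
    norm_num
  have hRD : Pool.CHT.RelvF F c r a w gT D h κT B T := hR.mono (le_max_left _ _) le_rfl
  -- the constants
  obtain ⟨X, hX⟩ : ∃ X : ℕ, X = if r = 0 then h + q + 1 else s (r - 1) + 1 := ⟨_, rfl⟩
  have hXs : C * X ≤ s r := by
    rw [hX]
    split_ifs with h0
    · subst h0
      exact hs.zero
    · obtain ⟨r', rfl⟩ : ∃ r', r = r' + 1 := ⟨r - 1, by omega⟩
      rw [Nat.add_sub_cancel]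
      exact hs.suc r' (by omega)
  have hXh : h + q + 1 ≤ X := by
    rw [hX]
    split_ifs with h0
    · exact le_rfl
    · have h1 := hs.le hC1 (show r - 1 < r + 1 by omega)
      have h3 : 1 * (h + q + 1) ≤ C * (h + q + 1) := Nat.mul_le_mul_right _ hC1
      omega
  have hXj : ∀ j < r, s j + q + 1 ≤ 2 * X := by
    intro j hj
    have h1 := hs.mono hC1 (show j ≤ r - 1 by omega) (by omega)
    have h3 : X = s (r - 1) + 1 := by rw [hX, if_neg (by omega)]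
    omega
  obtain ⟨p₀, hp₀⟩ : ∃ p₀, p₀ = C₁ * (h + 1) := ⟨_, rfl⟩
  have hp₀X : p₀ ≤ C₁ * X := by
    rw [hp₀]
    exact Nat.mul_le_mul_left _ (by omega)
  obtain ⟨Y, hY⟩ : ∃ Y : ℕ, Y = (C₁ + 3) * X := ⟨_, rfl⟩
  have hYp : p₀ + 1 ≤ Y := by
    rw [hY]
    have : C₁ * X + 3 * X = (C₁ + 3) * X := by ring
    omega
  have hYX : 2 * X + 1 ≤ Y := by
    rw [hY]
    have h1 : C₁ * X + 3 * X = (C₁ + 3) * X := by ring
    have h3 : 1 ≤ X := by omega
    omega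
  have hYs : (C₀ + C₂ + C₃ + C₄ + 1) * (2 * Y) ≤ s r := by
    refine le_trans ?_ hXs
    rw [hC, hY]
    calc (C₀ + C₂ + C₃ + C₄ + 1) * (2 * ((C₁ + 3) * X)) =
        (C₀ + C₂ + C₃ + C₄ + 1) * (2 * C₁ + 6) * X := by ring
      _ ≤ (C₀ + C₂ + C₃ + C₄ + 1) * (2 * C₁ + 8) * X :=
          Nat.mul_le_mul_right _ (Nat.mul_le_mul_left _ (by omega))
  have hsr : ∀ l ≤ r, s l ≤ s r := fun l hl => hs.mono hC1 hl (Nat.lt_succ_self r)
  have hs2 : Pool.ISO.SHie C₂ r (C₂ * (p₀ + q + 1)) s := by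
    refine ⟨le_trans ?_ hs.zero, fun i hi => (Nat.mul_le_mul_right _ ?_).trans
      (hs.suc i (by omega))⟩
    · rw [hp₀, hC]
      have h1 : C₁ * (h + 1) + q + 1 ≤ (2 * C₁ + 8) * (h + q + 1) := by
        nlinarith [Nat.zero_le (C₁ * h), Nat.zero_le (C₁ * q), Nat.zero_le C₁, Nat.zero_le h,
          Nat.zero_le q]
      calc C₂ * (C₁ * (h + 1) + q + 1) ≤
          (C₀ + C₂ + C₃ + C₄ + 1) * ((2 * C₁ + 8) * (h + q + 1)) :=
            Nat.mul_le_mul (by omega) h1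
        _ = _ := by ring
    · rw [hC]
      calc C₂ = C₂ * 1 := (Nat.mul_one _).symm
        _ ≤ (C₀ + C₂ + C₃ + C₄ + 1) * (2 * C₁ + 8) := Nat.mul_le_mul (by omega) (by omega)
  have hs3 : Pool.ISO.SHie C₃ (r + 1) (C₃ * (0 + q + 1)) s := by
    refine ⟨le_trans ?_ hs.zero, fun i hi => (Nat.mul_le_mul_right _ ?_).trans (hs.suc i hi)⟩
    · rw [hC]
      calc C₃ * (0 + q + 1) ≤ (C₀ + C₂ + C₃ + C₄ + 1) * ((2 * C₁ + 8) * (h + q + 1)) :=
            Nat.mul_le_mul (by omega) (by nlinarith [Nat.zero_le (C₁ * (h + q)), Nat.zero_le C₁])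
        _ = _ := by ring
    · rw [hC]
      calc C₃ = C₃ * 1 := (Nat.mul_one _).symm
        _ ≤ (C₀ + C₂ + C₃ + C₄ + 1) * (2 * C₁ + 8) := Nat.mul_le_mul (by omega) (by omega)
  -- the boxes of `T` near `Γ`
  obtain ⟨B₁, k1, k2, k3⟩ := hmv (κ' := 1) (Nat.lt_succ_self r) hc hRD (fun _ h => h)
    (by rw [one_mul]) (by
      rcases le_or_gt κT 0 with h0 | h0
      · have : κT * 2 ^ (r + 1) ≤ 0 := mul_nonpos_of_nonpos_of_nonneg h0 (by positivity)
        linarith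
      · have h3 : (2 : ℝ) ^ (r + 1) ≤ 2 * 4 ^ r := by
          rw [e4, pow_succ]
          have : (1 : ℝ) ≤ 2 ^ r := one_le_pow₀ (by norm_num)
          nlinarith
        exact (mul_le_mul_of_nonneg_left h3 h0.le).trans hκ2)
    (hΓ.mono (Nat.le_succ r) (fun _ => le_rfl) le_rfl le_rfl)
  have hP1 : Pool.K2S.Pe F.p B ≤ 2 ^ r * Pool.K2S.Pe F.p B₁ := by
    rw [div_le_iff₀ h2] at k2
    linarith
  -- the boxes of `T` near `N`
  obtain ⟨B₂, l1, l2, l3⟩ := hmv (κ' := 1 / 2 ^ r) (Nat.lt_succ_self r) hc hRD k1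
    (by rw [one_div, inv_mul_le_iff₀ h2]; exact hP1) (by
      rw [le_div_iff₀ h2]
      rcases le_or_gt κT 0 with h0 | h0
      · have : κT * 2 ^ (r + 1) * 2 ^ r ≤ 0 :=
          mul_nonpos_of_nonpos_of_nonneg (mul_nonpos_of_nonpos_of_nonneg h0 (by positivity))
            h2.le
        linarith
      · have h3 : κT * 2 ^ (r + 1) * 2 ^ r = κT * (2 * 4 ^ r) := by
          rw [e4, pow_succ]
          ring
        rw [h3]
        exact hκ2)
    ((hN.mono (Nat.le_succ r) (fun _ => le_rfl) le_rfl le_rfl).sub k1)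
  have hP2 : Pool.K2S.Pe F.p B ≤ 4 ^ r * Pool.K2S.Pe F.p B₂ := by
    rw [div_le_iff₀ h2] at l2
    calc Pool.K2S.Pe F.p B ≤ 2 ^ r * Pool.K2S.Pe F.p B₁ := hP1
      _ ≤ 2 ^ r * (Pool.K2S.Pe F.p B₂ * 2 ^ r) := mul_le_mul_of_nonneg_left l2 h2.le
      _ = 4 ^ r * Pool.K2S.Pe F.p B₂ := by rw [e4]; ring
  have hB₂ : Pool.K2S.Sub B₂ B := fun ω hω => k1 ω (l1 ω hω)
  have hΓr := hΓ.mono (Nat.le_succ r) (fun _ => le_rfl) le_rfl (le_refl e)
  obtain ⟨n1, n2⟩ := hmx (R := R) (p := p₀) (q := q) (e' := e + 2 * s r + q) (s := s) hc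
    (hT.sub hB₂) (hΓr.sub hB₂) hRq hΓT hs2 (fun l hl => ⟨hsT l hl, hsΓ l hl.le⟩)
    (fun ω hω b hb j hj => by
      rw [hp₀]
      exact k3 ω (l1 ω hω) b hb j hj)
    (fun l hl => by
      have := hsr l hl.le
      omega)
  obtain ⟨n3, -⟩ := hgr (R := R) (p := 0) (q := q) (e' := e + 2 * s r + q) (s := s) hc'
    (hΓ.sub hB₂) (hΓ.sub hB₂) (fun l _ _ => Nat.le_add_right _ _) (fun l _ => Nat.le_add_right _ _)
    hs3 (fun l hl => ⟨hsΓ l (by omega), hsΓ l (by omega)⟩) (fun ω _ b hb j hj => by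
      rw [pow_zero]
      exact hb.2 j hj) (fun l hl => by
      have := hsr l (by omega)
      omega)
  simp only [Pool.ISO.mixl_self] at n3
  have hdiv : ∀ {x y n : ℕ}, x ≤ y → (2 : ℝ) ^ x / 2 ^ n ≤ 2 ^ y / 2 ^ n := fun h =>
    div_le_div_of_nonneg_right (pow_le_pow_right₀ (by norm_num) h) (by positivity)
  -- the boxes of the mixed chain near `T`
  have hMT : ∀ ω, B₂ ω → ∀ b, Pool.GEN.NBx c (Pool.ISO.mixl R (Γ (Pool.PB.ptr F J ω)) (T (Pool.PB.ptr F J ω)))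
      (fun l => Pool.ISO.mixl R gΓ gT l - s l) a (F.t ω) r b → ∀ j < r,
      |b (some (c j)) - eval b (T (Pool.PB.ptr F J ω) j)| ≤ 2 ^ (2 * X) / 2 ^ gT j :=
    fun ω hω b hb j hj => (n2 ω hω r le_rfl b hb j hj).1.trans (hdiv (hXj j hj))
  refine ⟨B₂, hB₂, hP2, n1, n3, fun ω hω b hb => ?_, ?_⟩
  · have h5 : Pool.GEN.DepC c r (N (Pool.PB.ptr F J ω) r - NH (Pool.KSAT.slam F w ω) r) := fun y y' hn hy => by
      rw [map_sub, map_sub, hN.depG (Pool.PB.ptr F J ω) r y y' hn hy, hN.depH (Pool.KSAT.slam F w ω) r y y' hn hy]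
    have h6 : (N (Pool.PB.ptr F J ω) r - NH (Pool.KSAT.slam F w ω) r).totalDegree ≤ D :=
      (totalDegree_sub _ _).trans (max_le (hN.degG _ r) (hN.degH _ r))
    have h7 : ∀ b, Pool.GEN.NBx c (T (Pool.PB.ptr F J ω)) gT a (F.t ω) r b →
        |eval b (N (Pool.PB.ptr F J ω) r - NH (Pool.KSAT.slam F w ω) r)| ≤ 2 ^ (C₀ * (p₀ + 1)) * (1 / 2 ^ gN r) :=
      hls (p := p₀) (Nat.lt_succ_self r) hc (hN.degG (Pool.PB.ptr F J ω))
        (hN.depG (Pool.PB.ptr F J ω)) h5 h6 (by positivity)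
        (fun b hb j hj => by
          rw [hp₀]
          exact l3 ω hω b hb j hj) (fun b hb => by
          rw [map_sub]
          exact hN.agr ω (hB₂ ω hω) r (Nat.lt_succ_self r) b hb)
    have h8 := hls (p := 2 * X) (Nat.lt_succ_self r) hc (hT.degG (Pool.PB.ptr F J ω))
      (hT.depG (Pool.PB.ptr F J ω)) h5 h6 (by positivity) (hMT ω hω) h7 b hb
    rw [map_sub, ← mul_assoc, ← pow_add, mul_one_div] at h8
    refine h8.trans (hdiv ?_)
    calc C₀ * (2 * X + 1) + C₀ * (p₀ + 1) ≤ C₀ * Y + C₀ * Y :=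
          Nat.add_le_add (Nat.mul_le_mul_left _ hYX) (Nat.mul_le_mul_left _ hYp)
      _ = C₀ * (2 * Y) := by ring
      _ ≤ (C₀ + C₂ + C₃ + C₄ + 1) * (2 * Y) := Nat.mul_le_mul_right _ (by omega)
      _ ≤ s r := hYs
  · obtain ⟨p, hp'⟩ : ∃ p : ℕ, p = max p₀ (2 * X) := ⟨_, rfl⟩
    have hpY : p + 1 ≤ Y := by
      rw [hp']
      rcases max_choice p₀ (2 * X) with h5 | h5 <;> rw [h5] <;> omega
    have h1 := hrs (κ₁ := 1 / 4 ^ r) (κ₂ := κ) (p := p)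
      (g' := fun l => Pool.ISO.mixl R gΓ gT l - s l) (G' := fun y => Pool.ISO.mixl R (Γ y) (T y))
      (Nat.lt_succ_self r) hc hR hB₂
      (by rw [one_div, inv_mul_le_iff₀ h4]; exact hP2) hκ
      (by rw [mul_one_div, le_div_iff₀ h4]; exact hκ1)
      (fun y l => (hT.degG y l).trans (le_max_left _ _)) hT.depG
      (fun y l => (n1.degG y l).trans (le_max_left _ _)) n1.depG
      (fun ω hω b hb j hj => by
        show |b (some (c j)) - eval b (Pool.ISO.mixl R (Γ (Pool.PB.ptr F J ω)) (T (Pool.PB.ptr F J ω)) j)| ≤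
          2 ^ p / 2 ^ (Pool.ISO.mixl R gΓ gT j - s j)
        by_cases hRj : R j
        · rw [Pool.ISO.mixl_pos hRj, Pool.ISO.mixl_pos hRj]
          refine (k3 ω (l1 ω hω) b hb j hj).trans ?_
          rw [div_le_div_iff₀ (by positivity) (by positivity), ← pow_add, ← pow_add]
          refine pow_le_pow_right₀ (by norm_num) ?_
          have := le_max_left p₀ (2 * X)
          omega
        · rw [Pool.ISO.mixl_neg hRj, Pool.ISO.mixl_neg hRj]
          refine (hb.2 j hj).trans ?_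
          rw [div_le_div_iff₀ (by positivity) (by positivity), one_mul, ← pow_add]
          exact pow_le_pow_right₀ (by norm_num) (by omega))
      (fun ω hω b hb j hj => (hMT ω hω b hb j hj).trans (hdiv (by
        rw [hp']
        exact le_max_right _ _)))
    refine (Pool.ISO.relvF_exp h1 ?_).mono (le_max_right _ _) le_rfl
    have h5 : h ≤ X := by omega
    have h6 : h + C₄ * (p + 1) ≤ (C₀ + C₂ + C₃ + C₄ + 1) * (2 * Y) := by
      have h7 : C₄ * (p + 1) ≤ C₄ * Y := Nat.mul_le_mul_left _ hpY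
      have h8 : X ≤ Y := by omega
      nlinarith [Nat.zero_le (C₀ * Y), Nat.zero_le (C₂ * Y), Nat.zero_le (C₃ * Y),
        Nat.zero_le (C₄ * Y)]
    exact h6.trans hYs

end Pool.W.ISO
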